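import Pool.Agent.RKT.Defs

/-!
# Adding an index to a state
-/

open Set Filter Cardinal

namespace Pool.Agent.RKT.Add

universe u v

variable {ι : Type u} [LinearOrder ι] {U : ι → Ultrafilter ℕ} {f : ι → ι → ℕ → ℕ}

/-- Eventual statements along the projections of a chain. -/
lemma ev_iff (hch : Chain U f) {a b : ι} (h : a ≤ b) (p : ℕ → Prop) :
    (∀ᶠ y in (U a : Filter ℕ), p y) ↔ ∀ᶠ y in (U b : Filter ℕ), p (f a b y) := by
  rw [← hch.map_eq h]
  rfl

lemma ev_self (hch : Chain U f) (a : ι) : ∀ᶠ y in (U a : Filter ℕ), f a a y = y := by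
  rw [ev_iff hch (le_refl a)]
  exact hch.comp (le_refl a) (le_refl a)

/-- Largeness is inherited downwards. -/
lemma down (hch : Chain U f) {a b : ι} (h : a ≤ b) (F : Filter ℕ) (ga gb : ℕ → ℕ)
    (hcoh : ∃ A ∈ U b, ∃ B ∈ F, ∀ x ∈ B, gb x ∈ A → f a b (gb x) = ga x)
    (hl : ∀ B ∈ F, ∀ᶠ y in (U b : Filter ℕ), {x | x ∈ B ∧ gb x = y}.Infinite) :
    ∀ B ∈ F, ∀ᶠ y in (U a : Filter ℕ), {x | x ∈ B ∧ ga x = y}.Infinite := by
  intro B hB
  obtain ⟨A, hA, B₁, hB₁, hAB⟩ := hcoh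
  rw [ev_iff hch h]
  have hA' : ∀ᶠ y in (U b : Filter ℕ), y ∈ A := hA
  filter_upwards [hl (B ∩ B₁) (inter_mem hB hB₁), hA'] with y hy hyA
  refine hy.mono ?_
  rintro x ⟨⟨hx, hx₁⟩, rfl⟩
  exact ⟨hx, (hAB x hx₁ hyA).symm⟩

/-- Adding a new index with given data. -/
lemma mk_state (hch : Chain U f) (p : State U f) (b : ι) (hb : b ∉ p.C) (gb : ℕ → ℕ)
    (F' : Filter ℕ) (hF' : F' ≤ p.F) (hcg : F'.IsCountablyGenerated)
    (hcoh1 : ∀ c ∈ p.C, c ≤ b → ∃ A ∈ U b, ∃ B ∈ F', ∀ x ∈ B, gb x ∈ A →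
      f c b (gb x) = p.g c x)
    (hcoh2 : ∀ c ∈ p.C, b ≤ c → ∃ A ∈ U c, ∃ B ∈ F', ∀ x ∈ B, p.g c x ∈ A →
      f b c (p.g c x) = gb x)
    (hlb : ∀ B ∈ F', ∀ᶠ y in (U b : Filter ℕ), {x | x ∈ B ∧ gb x = y}.Infinite)
    (hlc : ∀ c ∈ p.C, ∀ B ∈ F', ∀ᶠ y in (U c : Filter ℕ), {x | x ∈ B ∧ p.g c x = y}.Infinite) :
    ∃ q : State U f, b ∈ q.C ∧ p ≤ q := by
  classical
  have hne : ∀ c ∈ p.C, c ≠ b := fun c hc h => hb (h ▸ hc)
  have hg : ∀ c ∈ p.C, Function.update p.g b gb c = p.g c := fun c hc =>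
    Function.update_of_ne (hne c hc) _ _
  have hgb : Function.update p.g b gb b = gb := Function.update_self _ _ _
  let q : State U f :=
    { C := insert b p.C
      g := Function.update p.g b gb
      F := F'
      countable := p.countable.insert b
      nonempty := insert_nonempty _ _
      cg := hcg
      coh := by
        intro c hc c' hc' hcc
        rcases hc with rfl | hc
        · rcases hc' with rfl | hc'
          · rw [hgb]
            exact ⟨{y | f c' c' y = y}, ev_self hch c', univ, univ_mem, fun x _ hx => hx⟩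
          · rw [hgb, hg c' hc']
            exact hcoh2 c' hc' hcc
        · rcases hc' with rfl | hc'
          · rw [hgb, hg c hc]
            exact hcoh1 c hc hcc
          · rw [hg c hc, hg c' hc']
            obtain ⟨A, hA, B, hB, h⟩ := p.coh c hc c' hc' hcc
            exact ⟨A, hA, B, hF' hB, h⟩
      large := by
        intro c hc
        rcases hc with rfl | hc
        · rw [hgb]
          exact hlb
        · rw [hg c hc]
          exact hlc c hc }
  exact ⟨q, mem_insert _ _, subset_insert _ _, hg, hF'⟩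

/-- Cutting a larger state down to the old index set. -/
lemma cut (p q : State U f) (h : p ≤ q) : ∃ r : State U f, p ≤ r ∧ r.C = p.C ∧ r.g = q.g ∧
    r.F = q.F := by
  let r : State U f :=
    { C := p.C
      g := q.g
      F := q.F
      countable := p.countable
      nonempty := p.nonempty
      cg := q.cg
      coh := fun a ha b hb hab => q.coh a (h.1 ha) b (h.1 hb) hab
      large := fun a ha => q.large a (h.1 ha) }
  exact ⟨r, ⟨Subset.rfl, h.2.1, h.2.2⟩, rfl, rfl, rfl⟩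

/-- Adding countably many sets. -/
lemma add_sets (hch : Chain U f)
    (hS1 : ∀ (p : State U f), ∀ a ∈ p.C, ∀ A ∈ U a, ∃ q : State U f, p ≤ q ∧ q.g a ⁻¹' A ∈ q.F)
    (hS3 : ∀ p : ℕ → State U f, Monotone p → ∃ q, ∀ n, p n ≤ q)
    (p : State U f) (a : ι) (ha : a ∈ p.C) (A : ℕ → Set ℕ) (hA : ∀ n, A n ∈ U a) :
    ∃ q : State U f, p ≤ q ∧ q.C = p.C ∧ ∀ n, p.g a ⁻¹' A n ∈ q.F := by
  have hnext : ∀ (n : ℕ) (r : State U f), ∃ q : State U f, a ∈ r.C →
      (r ≤ q ∧ q.g a ⁻¹' A n ∈ q.F) := by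
    intro n r
    by_cases har : a ∈ r.C
    · obtain ⟨q, hq⟩ := hS1 r a har (A n) (hA n)
      exact ⟨q, fun _ => hq⟩
    · exact ⟨r, fun h => absurd h har⟩
  choose nx hnx using hnext
  let P : ℕ → State U f := fun n => Nat.rec p (fun n r => nx n r) n
  have hP0 : P 0 = p := rfl
  have hPs : ∀ n, P (n + 1) = nx n (P n) := fun n => rfl
  have haP : ∀ n, a ∈ (P n).C := by
    intro n
    induction n with
    | zero => exact ha
    | succ n ih =>
      rw [hPs]
      exact (hnx n (P n) ih).1.1 ih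
  have hmono : Monotone P := by
    refine monotone_nat_of_le_succ fun n => ?_
    rw [hPs]
    exact (hnx n (P n) (haP n)).1
  obtain ⟨q, hq⟩ := hS3 P hmono
  obtain ⟨r, hpr, hrC, hrg, hrF⟩ := cut p q (hq 0)
  refine ⟨r, hpr, hrC, fun n => ?_⟩
  have h1 := (hnx n (P n) (haP n)).2
  rw [← hPs] at h1
  have h2 : (P (n + 1)).g a = p.g a := by
    have := hmono (Nat.zero_le (n + 1))
    exact this.2.1 a ha
  rw [h2] at h1
  rw [hrF]
  exact (hq (n + 1)).2.2 h1

/-- First case: the new index is below an old one. -/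
lemma case_le (hch : Chain U f)
    (hS1 : ∀ (p : State U f), ∀ a ∈ p.C, ∀ A ∈ U a, ∃ q : State U f, p ≤ q ∧ q.g a ⁻¹' A ∈ q.F)
    (hS3 : ∀ p : ℕ → State U f, Monotone p → ∃ q, ∀ n, p n ≤ q)
    (p : State U f) (b : ι) (hb : b ∉ p.C) (a : ι) (ha : a ∈ p.C) (hba : b ≤ a) :
    ∃ q : State U f, b ∈ q.C ∧ p ≤ q := by
  classical
  -- the sets to be added
  have hset : ∀ c : ι, ∃ A ∈ U a, c ∈ p.C → c ≤ a →
      (c ≤ b → ∀ y ∈ A, f c b (f b a y) = f c a y) ∧
      (b ≤ c → ∀ y ∈ A, f b c (f c a y) = f b a y) ∧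
      (∃ B ∈ p.F, ∀ x ∈ B, p.g a x ∈ A → f c a (p.g a x) = p.g c x) := by
    intro c
    by_cases hc : c ∈ p.C ∧ c ≤ a
    · obtain ⟨hc, hca⟩ := hc
      obtain ⟨A₁, hA₁, B, hB, h⟩ := p.coh c hc a ha hca
      have h1 : ∃ A₂ ∈ U a, c ≤ b → ∀ y ∈ A₂, f c b (f b a y) = f c a y := by
        by_cases hcb : c ≤ b
        · exact ⟨_, hch.comp hcb hba, fun _ y hy => hy⟩
        · exact ⟨univ, univ_mem, fun h => absurd h hcb⟩
      have h2 : ∃ A₃ ∈ U a, b ≤ c → ∀ y ∈ A₃, f b c (f c a y) = f b a y := by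
        by_cases hbc : b ≤ c
        · exact ⟨_, hch.comp hbc hca, fun _ y hy => hy⟩
        · exact ⟨univ, univ_mem, fun h => absurd h hbc⟩
      obtain ⟨A₂, hA₂, h2'⟩ := h1
      obtain ⟨A₃, hA₃, h3'⟩ := h2
      refine ⟨A₁ ∩ (A₂ ∩ A₃), inter_mem hA₁ (inter_mem hA₂ hA₃), fun _ _ => ⟨?_, ?_, ?_⟩⟩
      · exact fun hcb y hy => h2' hcb y hy.2.1
      · exact fun hbc y hy => h3' hbc y hy.2.2
      · exact ⟨B, hB, fun x hx hy => h x hx hy.1⟩
    · exact ⟨univ, univ_mem, fun h1 h2 => absurd ⟨h1, h2⟩ hc⟩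
  choose A hA hA' using hset
  obtain ⟨e, he⟩ := p.countable.exists_eq_range p.nonempty
  obtain ⟨q, hpq, hqC, hqA⟩ := add_sets hch hS1 hS3 p a ha (fun n => A (e n)) (fun n => hA (e n))
  have hqA' : ∀ c ∈ p.C, p.g a ⁻¹' A c ∈ q.F := by
    intro c hc
    rw [he] at hc
    obtain ⟨n, rfl⟩ := hc
    exact hqA n
  have hbq : b ∉ q.C := by rw [hqC]; exact hb
  obtain ⟨r, hbr, hqr⟩ := mk_state hch q b hbq (fun x => f b a (p.g a x)) q.F le_rfl q.cg
    (by
      intro c hc hcb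
      have hcp : c ∈ p.C := hqC ▸ hc
      obtain ⟨h1, h2, B, hB, h3⟩ := hA' c hcp (hcb.trans hba)
      refine ⟨univ, univ_mem, B ∩ p.g a ⁻¹' A c, inter_mem (hpq.2.2 hB) (hqA' c hcp), ?_⟩
      intro x hx _
      rw [h1 hcb _ hx.2, h3 x hx.1 hx.2, hpq.2.1 c hcp])
    (by
      intro c hc hbc
      have hcp : c ∈ p.C := hqC ▸ hc
      rw [hpq.2.1 c hcp]
      rcases le_total c a with hca | hac
      · obtain ⟨h1, h2, B, hB, h3⟩ := hA' c hcp hca
        refine ⟨univ, univ_mem, B ∩ p.g a ⁻¹' A c, inter_mem (hpq.2.2 hB) (hqA' c hcp), ?_⟩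
        intro x hx _
        rw [← h3 x hx.1 hx.2, h2 hbc _ hx.2]
      · obtain ⟨A₁, hA₁, B, hB, h⟩ := p.coh a ha c hcp hac
        have hcomp := hch.comp hba hac
        refine ⟨A₁ ∩ {x | f b a (f a c x) = f b c x}, inter_mem hA₁ hcomp, B, hpq.2.2 hB, ?_⟩
        rintro x hx ⟨hy1, hy2⟩
        rw [← h x hx hy1]
        exact hy2.symm)
    (by
      have haq : a ∈ q.C := hpq.1 ha
      have hl := q.large a haq
      rw [hpq.2.1 a ha] at hl
      exact down hch hba q.F _ (p.g a) ⟨univ, univ_mem, univ, univ_mem, fun x _ _ => rfl⟩ hl)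
    (fun c hc => q.large c hc)
  exact ⟨r, hbr, hpq.trans hqr⟩

/-- A strictly increasing choice from infinite sets of naturals. -/
lemma exists_pick (S : ℕ → Set ℕ) (hS : ∀ m, (S m).Infinite) :
    ∃ x : ℕ → ℕ, StrictMono x ∧ ∀ m, x m ∈ S m := by
  have h0 : ∃ z, z ∈ S 0 := (hS 0).nonempty
  obtain ⟨z₀, hz₀⟩ := h0
  have h1 : ∀ m n : ℕ, ∃ z ∈ S (m + 1), n < z := fun m n => (hS (m + 1)).exists_gt n
  choose nx hnx hnx' using h1
  let x : ℕ → ℕ := fun m => Nat.rec z₀ (fun m z => nx m z) m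
  have hx : ∀ m, x (m + 1) = nx m (x m) := fun m => rfl
  refine ⟨x, strictMono_nat_of_lt_succ fun m => ?_, fun m => ?_⟩
  · rw [hx]
    exact hnx' m _
  · cases m with
    | zero => exact hz₀
    | succ m =>
      rw [hx]
      exact hnx m _

/-- Infinite sets have disjoint infinite subsets, which are the fibres of one function. -/
lemma exists_refine (S : ℕ → Set ℕ) (hS : ∀ y, (S y).Infinite) :
    ∃ (X : ℕ → Set ℕ) (G : ℕ → ℕ), (∀ y, (X y).Infinite) ∧ (∀ y, X y ⊆ S y) ∧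
      ∀ y, ∀ x ∈ X y, G x = y := by
  obtain ⟨x, hx, hxS⟩ := exists_pick (fun m => S (Nat.unpair m).1) (fun m => hS _)
  refine ⟨fun y => range fun k => x (Nat.pair y k),
    fun z => (Nat.unpair (Function.invFun x z)).1, ?_, ?_, ?_⟩
  · intro y
    refine infinite_range_of_injective fun k k' hk => ?_
    have := hx.injective hk
    exact (Nat.pair_eq_pair.1 this).2
  · rintro y _ ⟨k, rfl⟩
    have := hxS (Nat.pair y k)
    simpa using this
  · rintro y _ ⟨k, rfl⟩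
    show (Nat.unpair (Function.invFun x (x (Nat.pair y k)))).1 = y
    rw [Function.leftInverse_invFun hx.injective]
    simp

/-- Second case: the new index is above all old ones. -/
lemma case_gt (hch : Chain U f) (p : State U f) (b : ι) (hb : ∀ a ∈ p.C, a < b) :
    ∃ q : State U f, b ∈ q.C ∧ p ≤ q := by
  classical
  have hbC : b ∉ p.C := fun h => lt_irrefl _ (hb b h)
  -- a cofinal monotone sequence
  obtain ⟨a, haC, hamono, hacof⟩ : ∃ a : ℕ → ι, (∀ n, a n ∈ p.C) ∧ Monotone a ∧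
      ∀ c ∈ p.C, ∃ n, c ≤ a n := by
    have : Countable p.C := p.countable
    have : Nonempty p.C := p.nonempty.to_subtype
    have := Encodable.ofCountable p.C
    have : Inhabited p.C := ⟨Classical.arbitrary p.C⟩
    have hd : Directed (· ≤ ·) (fun c : p.C => (c : ι)) :=
      (show Monotone (fun c : p.C => (c : ι)) from fun _ _ h => h).directed_le
    refine ⟨fun n => (hd.sequence _ n : p.C).1, fun n => (hd.sequence _ n).2,
      hd.sequence_mono, ?_⟩
    intro c hc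
    exact ⟨_, hd.rel_sequence ⟨c, hc⟩⟩
  have hab : ∀ n, a n < b := fun n => hb _ (haC n)
  have := p.cg
  obtain ⟨B₀, hB₀⟩ := p.F.exists_antitone_basis
  -- coherence along the sequence
  have hcoh : ∀ i n : ℕ, ∃ A ∈ U (a n), ∃ B ∈ p.F, i ≤ n → ∀ x ∈ B, p.g (a n) x ∈ A →
      f (a i) (a n) (p.g (a n) x) = p.g (a i) x := by
    intro i n
    by_cases hin : i ≤ n
    · obtain ⟨A, hA, B, hB, h⟩ := p.coh (a i) (haC i) (a n) (haC n) (hamono hin)
      exact ⟨A, hA, B, hB, fun _ => h⟩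
    · exact ⟨univ, univ_mem, univ, univ_mem, fun h => absurd h hin⟩
  choose A₀ hA₀ C₀ hC₀ hcoh₀ using hcoh
  let A : ℕ → Set ℕ := fun n => ⋂ i ∈ Finset.range (n + 1), A₀ i n
  have hA : ∀ n, A n ∈ U (a n) := by
    intro n
    show A n ∈ (U (a n) : Filter ℕ)
    rw [biInter_finset_mem]
    exact fun i _ => hA₀ i n
  let B : ℕ → Set ℕ := fun n => ⋂ m ∈ Finset.range (n + 1), (B₀ m ∩
    ⋂ i ∈ Finset.range (m + 1), C₀ i m)
  have hB : ∀ n, B n ∈ p.F := by
    intro n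
    rw [biInter_finset_mem]
    intro m _
    refine inter_mem (hB₀.1.mem_of_mem trivial) ?_
    rw [biInter_finset_mem]
    exact fun i _ => hC₀ i m
  have hBanti : ∀ {m n : ℕ}, m ≤ n → B n ⊆ B m := by
    intro m n hmn
    apply biInter_subset_biInter_left
    intro i hi
    have hi' : i < m + 1 := by simpa using hi
    show i ∈ (Finset.range (n + 1))
    simp only [Finset.mem_range]
    omega
  have hBB₀ : ∀ n, B n ⊆ B₀ n := by
    intro n x hx
    have := mem_iInter₂.1 hx n (by simp)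
    exact this.1
  have hBC₀ : ∀ i n, i ≤ n → B n ⊆ C₀ i n := by
    intro i n hin x hx
    have := mem_iInter₂.1 hx n (by simp)
    exact mem_iInter₂.1 this.2 i (by simp; omega)
  have hstar : ∀ i n, i ≤ n → ∀ x ∈ B n, p.g (a n) x ∈ A n →
      f (a i) (a n) (p.g (a n) x) = p.g (a i) x := by
    intro i n hin x hx hy
    exact hcoh₀ i n hin x (hBC₀ i n hin hx) (mem_iInter₂.1 hy i (by simp; omega))
  let E : ℕ → Set ℕ := fun n => {y | f (a n) b y ∈ A n ∧
    {x | x ∈ B n ∧ p.g (a n) x = f (a n) b y}.Infinite ∧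
    ∀ i ≤ n, f (a i) (a n) (f (a n) b y) = f (a i) b y}
  have hE : ∀ n, ∀ᶠ y in (U b : Filter ℕ), y ∈ E n := by
    intro n
    have h1 : ∀ᶠ y in (U b : Filter ℕ), f (a n) b y ∈ A n :=
      (ev_iff hch (hab n).le (fun y => y ∈ A n)).1 (hA n)
    have h2 := (ev_iff hch (hab n).le _).1 (p.large (a n) (haC n) (B n) (hB n))
    have h3 : ∀ᶠ y in (U b : Filter ℕ), ∀ i ∈ Finset.range (n + 1),
        f (a i) (a n) (f (a n) b y) = f (a i) b y := by
      rw [Filter.eventually_all_finset]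
      intro i hi
      have hi' : i < n + 1 := by simpa using hi
      exact hch.comp (hamono (by omega)) (hab n).le
    filter_upwards [h1, h2, h3] with y hy1 hy2 hy3
    exact ⟨hy1, hy2, fun i hi => hy3 i (by simp; omega)⟩
  let E' : ℕ → Set ℕ := fun n => {y | n ≤ y ∧ ∀ i ≤ n, y ∈ E i}
  have hE' : ∀ n, ∀ᶠ y in (U b : Filter ℕ), y ∈ E' n := by
    intro n
    have h1 : ∀ᶠ y in (U b : Filter ℕ), ∀ k ∈ Finset.range n, y ≠ k := by
      rw [Filter.eventually_all_finset]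
      intro k _
      exact hch.nonpr (hab 0) k
    have h2 : ∀ᶠ y in (U b : Filter ℕ), ∀ i ∈ Finset.range (n + 1), y ∈ E i := by
      rw [Filter.eventually_all_finset]
      exact fun i _ => hE i
    filter_upwards [h1, h2] with y hy1 hy2
    refine ⟨?_, fun i hi => hy2 i (by simp; omega)⟩
    by_contra hcon
    exact hy1 y (by simpa using hcon) rfl
  -- the index
  have hN : ∀ y, ∃ N, y ∈ E' 0 → (y ∈ E' N ∧ ∀ n, y ∈ E' n → n ≤ N) := by
    intro y
    by_cases hy : y ∈ E' 0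
    · refine ⟨Nat.findGreatest (fun n => y ∈ E' n) y, fun _ => ⟨?_, ?_⟩⟩
      · exact Nat.findGreatest_spec (P := fun n => y ∈ E' n) (Nat.zero_le y) hy
      · intro n hn
        exact Nat.le_findGreatest hn.1 hn
    · exact ⟨0, fun h => absurd h hy⟩
  choose N hN using hN
  let S : ℕ → Set ℕ := fun y => {x | y ∈ E' 0 →
    x ∈ B (N y) ∧ p.g (a (N y)) x = f (a (N y)) b y}
  have hS : ∀ y, (S y).Infinite := by
    intro y
    by_cases hy : y ∈ E' 0
    · have h1 := ((hN y hy).1.2 (N y) le_rfl).2.1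
      exact h1.mono fun x hx _ => hx
    · have : S y = Set.univ := eq_univ_of_forall fun x h => absurd h hy
      rw [this]
      exact infinite_univ
  obtain ⟨X, G, hXinf, hXS, hXG⟩ := exists_refine S hS
  let XX : Set ℕ := {x | ∃ y ∈ E' 0, x ∈ X y}
  have hkey : ∀ x ∈ XX, ∀ n, G x ∈ E' n → x ∈ B n ∧ p.g (a n) x = f (a n) b (G x) := by
    rintro x ⟨y, hy, hxy⟩ n hn
    have hG : G x = y := hXG y x hxy
    rw [hG] at hn ⊢
    obtain ⟨h1, h2⟩ := hN y hy
    have hnN : n ≤ N y := h2 n hn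
    obtain ⟨hxB, hxg⟩ := hXS y hxy hy
    refine ⟨hBanti hnN hxB, ?_⟩
    have hEN := h1.2 (N y) le_rfl
    have h3 := hstar n (N y) hnN x hxB (by rw [hxg]; exact hEN.1)
    rw [← h3, hxg]
    exact hEN.2.2 n hnN
  have hcohb : ∀ c ∈ p.C, c ≤ b → ∃ A ∈ U b, ∃ B ∈ p.F ⊓ 𝓟 XX, ∀ x ∈ B, G x ∈ A →
      f c b (G x) = p.g c x := by
    intro c hc hcb
    obtain ⟨n, hn⟩ := hacof c hc
    obtain ⟨A₁, hA₁, B₁, hB₁, h₁⟩ := p.coh c hc (a n) (haC n) hn
    have hc1 : ∀ᶠ y in (U b : Filter ℕ), f (a n) b y ∈ A₁ :=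
      (ev_iff hch (hab n).le (fun y => y ∈ A₁)).1 hA₁
    have hc2 := hch.comp hn (hab n).le
    refine ⟨{y | f (a n) b y ∈ A₁} ∩ {y | f c (a n) (f (a n) b y) = f c b y} ∩ E' n,
      inter_mem (inter_mem hc1 hc2) (hE' n), B₁ ∩ XX,
      inter_mem (mem_inf_of_left hB₁) (mem_inf_of_right (mem_principal_self _)), ?_⟩
    rintro x ⟨hxB, hxX⟩ ⟨⟨hy1, hy2⟩, hy3⟩
    obtain ⟨h3, h4⟩ := hkey x hxX n hy3
    have h5 := h₁ x hxB (by rw [h4]; exact hy1)
    rw [← h5, h4]
    exact hy2.symm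
  have hlb : ∀ B' ∈ p.F ⊓ 𝓟 XX, ∀ᶠ y in (U b : Filter ℕ), {x | x ∈ B' ∧ G x = y}.Infinite := by
    intro B' hB'
    rw [mem_inf_principal] at hB'
    obtain ⟨m, -, hm⟩ := hB₀.1.mem_iff.1 hB'
    filter_upwards [hE' m] with y hy
    have hy0 : y ∈ E' 0 := ⟨Nat.zero_le _, fun i hi => hy.2 i (hi.trans (Nat.zero_le m))⟩
    refine (hXinf y).mono fun x hx => ?_
    have hxX : x ∈ XX := ⟨y, hy0, hx⟩
    have hGx : G x = y := hXG y x hx
    refine ⟨?_, hGx⟩
    have h1 := (hkey x hxX m (by rw [hGx]; exact hy)).1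
    exact hm (hBB₀ m h1) hxX
  refine mk_state hch p b hbC G (p.F ⊓ 𝓟 XX) inf_le_left inferInstance hcohb ?_ hlb ?_
  · intro c hc hbc
    exact absurd (hb c hc) (not_lt.2 hbc)
  · intro c hc
    exact down hch (hb c hc).le _ _ G (hcohb c hc (hb c hc).le) hlb

end Pool.Agent.RKT.Add

namespace Pool.Agent.RKT

universe u

theorem target_Add (hS : Target_Set.{u}) : Target_Add.{u} := by
  intro ι _ U f hch p b
  obtain ⟨h1, -, h3, -⟩ := hS ι U f hch
  by_cases hb : b ∈ p.C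
  · exact ⟨p, hb, le_rfl⟩
  · by_cases hex : ∃ a ∈ p.C, b ≤ a
    · obtain ⟨a, ha, hba⟩ := hex
      exact Add.case_le hch h1 h3 p b hb a ha hba
    · refine Add.case_gt hch p b fun a ha => ?_
      by_contra hcon
      exact hex ⟨a, ha, not_lt.1 hcon⟩

end Pool.Agent.RKT
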