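import Mathlib

/-!
# Trees of height `ω₂` as initial segments of the Rudin-Keisler order: definitions and targets

MP_f69c58_lc.  Under CH the tree of functions `s : α → ℶ_2`, `α < ω₂`, is an initial segment of the
Rudin-Keisler order of ultrafilters on `ℕ`.
-/

open Set Filter Cardinal

namespace Pool.Agent.RKT

universe u v

/-! ## The final statement -/

/-- The space of all ultrafilters on `ℕ`, with the Rudin-Keisler preorder. -/
def BetaOmega : Type := Ultrafilter ℕ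

/-- `u ≤ v` iff `u = f(v)` for some `f : ℕ → ℕ`. -/
def RKle (u v : Ultrafilter ℕ) : Prop := ∃ f : ℕ → ℕ, u = v.map f

lemma RKle.refl (u : Ultrafilter ℕ) : RKle u u := ⟨id, by simp⟩

lemma RKle.trans {u v w : Ultrafilter ℕ} (h : RKle u v) (h' : RKle v w) : RKle u w := by
  obtain ⟨f, rfl⟩ := h
  obtain ⟨g, rfl⟩ := h'
  exact ⟨f ∘ g, by rw [Ultrafilter.map_map]⟩

instance : Preorder BetaOmega where
  le u v := RKle u v
  le_refl := RKle.refl
  le_trans _ _ _ h h' := RKle.trans h h'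

/-- The Rudin-Keisler order on isomorphism classes. -/
abbrev RKClass : Type := Antisymmetrization BetaOmega (· ≤ ·)

/-- An element of `K^{<δ}`: a function from an ordinal `len < δ` to `K`. -/
structure Node (K : Type) (δ : Ordinal.{0}) where
  len : Ordinal.{0}
  len_lt : len < δ
  val : Set.Iio len → K

/-- The order of the tree `K^{<δ}`: extension of functions. -/
instance (K : Type) (δ : Ordinal.{0}) : LE (Node K δ) where
  le s t := ∃ h : s.len ≤ t.len, ∀ a : Set.Iio s.len, s.val a = t.val ⟨a.1, lt_of_lt_of_le a.2 h⟩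

/-- The main theorem. -/
def Target_Main : Prop :=
  Cardinal.continuum.{0} = Cardinal.aleph.{0} 1 → ∀ K : Type, Cardinal.mk K = Cardinal.beth.{0} 2 →
    ∃ I : Set RKClass, IsLowerSet I ∧ Nonempty (I ≃o Node K (Ordinal.omega.{0} 2))

/-! ## Fixed points -/

/-- JOB FIX. An ultrafilter fixed by a map concentrates on its fixed points. -/
def Target_Fix : Prop :=
  ∀ (W : Ultrafilter ℕ) (e : ℕ → ℕ), W.map e = W → ∀ᶠ x in (W : Filter ℕ), e x = x

/-! ## Abstract generic construction -/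

/-- JOB GEN. In a countably closed preorder in which every element splits, one finds `2^{ℵ₁}` directed
sets, each meeting `ℵ₁` prescribed dense sets, and pairwise containing incompatible elements. -/
def Target_Gen : Prop :=
  ∀ (P : Type u) [Preorder P] (p₀ : P) (Inc : P → P → Prop) (I : Type) (J : Type v)
    (D : J → Set P),
    (∀ p : ℕ → P, Monotone p → ∃ q, ∀ n, p n ≤ q) →
    (∀ p, ∃ q₀ q₁, p ≤ q₀ ∧ p ≤ q₁ ∧ Inc q₀ q₁) →
    (∀ q₀ q₁ r₀ r₁, Inc q₀ q₁ → q₀ ≤ r₀ → q₁ ≤ r₁ → Inc r₀ r₁) →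
    Cardinal.mk I = Cardinal.aleph.{0} 1 → Cardinal.mk J ≤ Cardinal.aleph.{v} 1 →
    (∀ j p, ∃ q ∈ D j, p ≤ q) →
    ∃ G : (I → Bool) → Set P,
      (∀ η, (G η).Nonempty ∧ DirectedOn (· ≤ ·) (G η) ∧ (∀ p ∈ G η, p₀ ≤ p) ∧
        ∀ j, ∃ q ∈ G η, q ∈ D j) ∧
      ∀ η η', η ≠ η' → ∃ q₀ ∈ G η, ∃ q₁ ∈ G η', Inc q₀ q₁ ∨ Inc q₁ q₀

/-! ## Chains and states -/

/-- `c` takes only finitely many values on each fibre of `p`, modulo `W`. -/
def FinVal (W : Ultrafilter ℕ) (p c : ℕ → ℕ) : Prop :=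
  ∃ A ∈ W, ∀ y, (c '' {x | x ∈ A ∧ p x = y}).Finite

/-- Every function with finitely many values on the fibres of `p` factors through `p`, modulo `W`. -/
def Tight (W : Ultrafilter ℕ) (p : ℕ → ℕ) : Prop :=
  ∀ c : ℕ → ℕ, FinVal W p c → ∃ d : ℕ → ℕ, ∀ᶠ x in (W : Filter ℕ), c x = d (p x)

/-- A coherent chain of ultrafilters. -/
structure Chain {ι : Type u} [LinearOrder ι] (U : ι → Ultrafilter ℕ) (f : ι → ι → ℕ → ℕ) :
    Prop where
  map_eq : ∀ {a b}, a ≤ b → (U b).map (f a b) = U a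
  comp : ∀ {a b c}, a ≤ b → b ≤ c → ∀ᶠ x in (U c : Filter ℕ), f a b (f b c x) = f a c x
  tight : ∀ {a b}, a ≤ b → Tight (U b) (f a b)
  nonpr : ∀ {a b}, a < b → ∀ n, {n}ᶜ ∈ U b

/-- A countable piece of information on an upper bound `W` of the chain: projections `g a` for
countably many `a`, and a countably generated filter `F` contained in `W`. -/
structure State {ι : Type u} [LinearOrder ι] (U : ι → Ultrafilter ℕ) (f : ι → ι → ℕ → ℕ) where
  C : Set ι
  g : ι → ℕ → ℕ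
  F : Filter ℕ
  countable : C.Countable
  nonempty : C.Nonempty
  cg : F.IsCountablyGenerated
  coh : ∀ a ∈ C, ∀ b ∈ C, a ≤ b → ∃ A ∈ U b, ∃ B ∈ F, ∀ x ∈ B, g b x ∈ A → f a b (g b x) = g a x
  large : ∀ a ∈ C, ∀ B ∈ F, ∀ᶠ y in (U a : Filter ℕ), {x | x ∈ B ∧ g a x = y}.Infinite

instance {ι : Type u} [LinearOrder ι] (U : ι → Ultrafilter ℕ) (f : ι → ι → ℕ → ℕ) :
    Preorder (State U f) where
  le p q := p.C ⊆ q.C ∧ (∀ a ∈ p.C, q.g a = p.g a) ∧ q.F ≤ p.F
  le_refl p := ⟨Subset.rfl, fun _ _ => rfl, le_rfl⟩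
  le_trans p q r h h' := ⟨h.1.trans h'.1, fun a ha => by rw [h'.2.1 a (h.1 ha), h.2.1 a ha],
    h'.2.2.trans h.2.2⟩

/-- JOB ADD. A new index can be added to a state. -/
def Target_Add : Prop :=
  ∀ (ι : Type u) [LinearOrder ι] (U : ι → Ultrafilter ℕ) (f : ι → ι → ℕ → ℕ), Chain U f →
    ∀ (p : State U f) (b : ι), ∃ q : State U f, b ∈ q.C ∧ p ≤ q

/-- JOB FUN. A function can be made injective, or to factor through the state. -/
def Target_Fun : Prop :=
  ∀ (ι : Type u) [LinearOrder ι] (U : ι → Ultrafilter ℕ) (f : ι → ι → ℕ → ℕ), Chain U f →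
    ∀ (p : State U f) (h : ℕ → ℕ), ∃ q : State U f, p ≤ q ∧
      ((∃ X ∈ q.F, InjOn h X) ∨
        ∃ a ∈ q.C, ∃ k : ℕ → ℕ, ∃ X ∈ q.F, ∀ x ∈ X, h x = k (q.g a x))

/-- JOB SET. A set of `U a` can be added, states split, and monotone sequences have upper bounds. -/
def Target_Set : Prop :=
  ∀ (ι : Type u) [LinearOrder ι] (U : ι → Ultrafilter ℕ) (f : ι → ι → ℕ → ℕ), Chain U f →
    (∀ (p : State U f), ∀ a ∈ p.C, ∀ A ∈ U a, ∃ q : State U f, p ≤ q ∧ q.g a ⁻¹' A ∈ q.F) ∧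
    (∀ p : State U f, ∃ q₀ q₁ : State U f, p ≤ q₀ ∧ p ≤ q₁ ∧
      ∃ X₀ ∈ q₀.F, ∃ X₁ ∈ q₁.F, Disjoint X₀ X₁) ∧
    (∀ p : ℕ → State U f, Monotone p → ∃ q, ∀ n, p n ≤ q) ∧
    (Nonempty ι → Nonempty (State U f))

/-! ## The extension theorem -/

/-- Equal images come from equal maps. -/
def Rigid (W : Ultrafilter ℕ) : Prop :=
  ∀ h h' : ℕ → ℕ, W.map h = W.map h' → ∀ᶠ x in (W : Filter ℕ), h x = h' x

/-- `W` is a minimal upper bound of the family `u`, with good properties. -/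
structure IsExt {ι : Type u} (u : ι → Ultrafilter ℕ) (W : Ultrafilter ℕ) : Prop where
  le : ∀ a, RKle (u a) W
  rigid : Rigid W
  min : ∀ h : ℕ → ℕ, (∃ X ∈ W, InjOn h X) ∨ ∃ a, RKle (W.map h) (u a)
  tight : ∀ a, ∀ p : ℕ → ℕ, W.map p = u a → Tight W p
  big : ∀ a, ∀ p : ℕ → ℕ, W.map p = u a → ∀ X ∈ W, ¬ InjOn p X

/-- Each member of the chain is a minimal upper bound of the previous ones. -/
def GoodChain {ι : Type u} [LinearOrder ι] (u : ι → Ultrafilter ℕ) : Prop :=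
  ∀ b, IsExt (fun a : Set.Iio b => u a) (u b)

/-- The extension theorem (from Fix, Gen, Add, Fun, Set). -/
def Target_Ext : Prop :=
  Cardinal.continuum.{0} = Cardinal.aleph.{0} 1 → ∀ (ι : Type u) [LinearOrder ι] [Nonempty ι],
    Cardinal.mk ι ≤ Cardinal.aleph.{u} 1 → ∀ u : ι → Ultrafilter ℕ, GoodChain u →
    ∀ K : Type, Cardinal.mk K = Cardinal.beth.{0} 2 →
    ∃ W : K → Ultrafilter ℕ, (∀ k, IsExt u (W k)) ∧
      ∀ k k', k ≠ k' → ¬ (RKle (W k) (W k') ∧ RKle (W k') (W k))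

/-- JOB TREE. The final recursion. -/
def Target_Tree : Prop := Target_Fix → Target_Ext.{1} → Target_Main

end Pool.Agent.RKT
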