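import Pool.Agent.RKT.Defs

/-!
# The extension theorem

A good chain of at most `ℵ₁` ultrafilters has `ℶ_2` pairwise non-isomorphic minimal upper bounds.
-/

open Set Filter Cardinal

namespace Pool.Agent.RKT.Ext

universe u

lemma map_congr {W : Ultrafilter ℕ} {h h' : ℕ → ℕ} (e : ∀ᶠ x in (W : Filter ℕ), h x = h' x) :
    W.map h = W.map h' := by
  apply Ultrafilter.coe_injective
  rw [Ultrafilter.coe_map, Ultrafilter.coe_map]
  exact Filter.map_congr e

lemma ev_map {W : Ultrafilter ℕ} {g : ℕ → ℕ} {V : Ultrafilter ℕ} (h : W.map g = V)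
    {P : ℕ → Prop} (hP : ∀ᶠ y in (V : Filter ℕ), P y) : ∀ᶠ x in (W : Filter ℕ), P (g x) := by
  rw [← h] at hP
  exact hP

/-- Existence of the maps of a good chain. -/
lemma exists_chain {ι : Type u} [LinearOrder ι] {U : ι → Ultrafilter ℕ} (hU : GoodChain U) :
    ∃ f : ι → ι → ℕ → ℕ, Chain U f := by
  classical
  have h1 : ∀ a b : ι, ∃ f : ℕ → ℕ, a ≤ b → (U b).map f = U a ∧ (a = b → f = id) := by
    intro a b
    by_cases h : a < b
    · obtain ⟨f, hf⟩ := (hU b).le ⟨a, h⟩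
      exact ⟨f, fun _ => ⟨hf.symm, fun h' => absurd h' h.ne⟩⟩
    · refine ⟨id, fun hab => ?_⟩
      have : a = b := le_antisymm hab (not_lt.1 h)
      subst this
      exact ⟨by simp, fun _ => rfl⟩
  choose f hf using h1
  refine ⟨f, ⟨fun {a b} h => (hf a b h).1, ?_, ?_, ?_⟩⟩
  · intro a b c hab hbc
    have := (hU c).rigid (f a b ∘ f b c) (f a c) (by
      rw [← Ultrafilter.map_map, (hf b c hbc).1, (hf a b hab).1, (hf a c (hab.trans hbc)).1])
    exact this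
  · intro a b hab
    rcases hab.eq_or_lt with h | h
    · have : f a b = id := (hf a b hab).2 h
      rw [this]
      intro c _
      exact ⟨c, Eventually.of_forall fun x => rfl⟩
    · exact (hU b).tight ⟨a, h⟩ (f a b) (hf a b hab).1
  · intro a b hab n
    rw [Ultrafilter.compl_mem_iff_notMem]
    intro hn
    exact (hU b).big ⟨a, hab⟩ (f a b) (hf a b hab.le).1 {n} hn (injOn_singleton _ _)

/-- The properties of the ultrafilter obtained from a generic directed set. -/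
structure Gen {ι : Type u} [LinearOrder ι] (U : ι → Ultrafilter ℕ) (f : ι → ι → ℕ → ℕ)
    (W : Ultrafilter ℕ) (g : ι → ℕ → ℕ) : Prop where
  map_g : ∀ a, W.map (g a) = U a
  coh : ∀ {a b}, a ≤ b → ∀ᶠ x in (W : Filter ℕ), f a b (g b x) = g a x
  large : ∀ a, ∀ B ∈ W, ∀ᶠ y in (U a : Filter ℕ), {x | x ∈ B ∧ g a x = y}.Infinite
  func : ∀ h : ℕ → ℕ, (∃ X ∈ W, InjOn h X) ∨
    ∃ a, ∃ k : ℕ → ℕ, ∀ᶠ x in (W : Filter ℕ), h x = k (g a x)

lemma rigid_of_inj (hF : Target_Fix) {W : Ultrafilter ℕ} {h h' : ℕ → ℕ} {X : Set ℕ} (hX : X ∈ W)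
    (hi : InjOn h X) (e : W.map h = W.map h') : ∀ᶠ x in (W : Filter ℕ), h x = h' x := by
  classical
  have hl : ∀ x ∈ X, Function.invFunOn h X (h x) = x := fun x hx => hi.leftInvOn_invFunOn hx
  have e1 : W.map (Function.invFunOn h X ∘ h) = W := by
    have : W.map (Function.invFunOn h X ∘ h) = W.map id :=
      map_congr (by filter_upwards [hX] with x hx; exact hl x hx)
    rw [this, Ultrafilter.map_id]
  have e2 : W.map (Function.invFunOn h X ∘ h') = W := by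
    rw [← Ultrafilter.map_map, ← e, Ultrafilter.map_map, e1]
  have e3 := hF W _ e2
  have e4 : ∀ᶠ x in (W : Filter ℕ), h' x ∈ h '' X := by
    have : h '' X ∈ W.map h := by
      rw [Ultrafilter.mem_map]
      exact mem_of_superset hX (subset_preimage_image h X)
    rw [e, Ultrafilter.mem_map] at this
    exact this
  filter_upwards [e3, e4] with x h3 h4
  obtain ⟨x', hx', hh⟩ := h4
  simp only [Function.comp] at h3
  rw [← hh, hl x' hx'] at h3
  rw [← hh, h3]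

lemma gen_rigid (hF : Target_Fix) {ι : Type u} [LinearOrder ι] {U : ι → Ultrafilter ℕ}
    (hU : GoodChain U) {f : ι → ι → ℕ → ℕ} {W : Ultrafilter ℕ} {g : ι → ℕ → ℕ}
    (hW : Gen U f W g) : Rigid W := by
  intro h h' e
  rcases hW.func h with ⟨X, hX, hi⟩ | ⟨a, k, hk⟩
  · exact rigid_of_inj hF hX hi e
  rcases hW.func h' with ⟨X, hX, hi⟩ | ⟨b, k', hk'⟩
  · filter_upwards [rigid_of_inj hF hX hi e.symm] with x hx using hx.symm
  have main : ∀ {a b : ι} {h h' k k' : ℕ → ℕ}, a ≤ b → W.map h = W.map h' →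
      (∀ᶠ x in (W : Filter ℕ), h x = k (g a x)) → (∀ᶠ x in (W : Filter ℕ), h' x = k' (g b x)) →
      ∀ᶠ x in (W : Filter ℕ), h x = h' x := by
    intro a b h h' k k' hab e hk hk'
    have h1 : ∀ᶠ x in (W : Filter ℕ), h x = (k ∘ f a b) (g b x) := by
      filter_upwards [hk, hW.coh hab] with x hx hc
      rw [hx, Function.comp, hc]
    have e1 : W.map h = (U b).map (k ∘ f a b) := by
      rw [← hW.map_g b, Ultrafilter.map_map]
      exact map_congr h1
    have e2 : W.map h' = (U b).map k' := by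
      rw [← hW.map_g b, Ultrafilter.map_map]
      exact map_congr hk'
    have h3 := (hU b).rigid (k ∘ f a b) k' (by rw [← e1, ← e2, e])
    filter_upwards [h1, hk', ev_map (hW.map_g b) h3] with x x1 x2 x3
    rw [x1, x2, x3]
  rcases le_total a b with hab | hab
  · exact main hab e hk hk'
  · filter_upwards [main hab e.symm hk' hk] with x hx using hx.symm

lemma gen_tight {ι : Type u} [LinearOrder ι] {U : ι → Ultrafilter ℕ}
    {f : ι → ι → ℕ → ℕ} {W : Ultrafilter ℕ} {g : ι → ℕ → ℕ}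
    (hf : Chain U f) (hW : Gen U f W g) (a : ι) : Tight W (g a) := by
  rintro c ⟨A, hA, hfin⟩
  rcases hW.func c with ⟨X, hX, hi⟩ | ⟨b, k, hk⟩
  · exfalso
    have h1 := hW.large a (A ∩ X) (inter_mem hA hX)
    obtain ⟨y, hy⟩ := h1.exists
    have h2 : (c '' {x | x ∈ A ∩ X ∧ g a x = y}).Infinite :=
      hy.image (hi.mono fun x hx => hx.1.2)
    exact h2 ((hfin y).subset (image_mono fun x hx => ⟨hx.1.1, hx.2⟩))
  · rcases le_total b a with hba | hab
    · refine ⟨k ∘ f b a, ?_⟩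
      filter_upwards [hk, hW.coh hba] with x hx hc
      rw [hx, Function.comp, hc]
    · have hfv : FinVal (U b) (f a b) k := by
        set S := {x | x ∈ A ∧ c x = k (g b x) ∧ f a b (g b x) = g a x} with hS
        have hSW : S ∈ W := by
          filter_upwards [hA, hk, hW.coh hab] with x h1 h2 h3
          exact ⟨h1, h2, h3⟩
        refine ⟨g b '' S, ?_, fun y => ?_⟩
        · rw [← hW.map_g b, Ultrafilter.mem_map]
          exact mem_of_superset hSW (subset_preimage_image _ _)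
        · refine (hfin y).subset ?_
          rintro _ ⟨z, ⟨⟨x, hx, rfl⟩, hz⟩, rfl⟩
          exact ⟨x, ⟨hx.1, by rw [← hx.2.2, hz]⟩, hx.2.1⟩
      obtain ⟨d, hd⟩ := hf.tight hab k hfv
      refine ⟨d, ?_⟩
      filter_upwards [hk, hW.coh hab, ev_map (hW.map_g b) hd] with x h1 h2 h3
      rw [h1, h3, h2]

lemma tight_congr {W : Ultrafilter ℕ} {p q : ℕ → ℕ} (e : ∀ᶠ x in (W : Filter ℕ), p x = q x)
    (h : Tight W q) : Tight W p := by
  rintro c ⟨A, hA, hfin⟩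
  obtain ⟨d, hd⟩ := h c ⟨A ∩ {x | p x = q x}, inter_mem hA e, fun y =>
    (hfin y).subset (image_mono fun x hx => ⟨hx.1.1, by rw [← hx.2]; exact hx.1.2⟩)⟩
  refine ⟨d, ?_⟩
  filter_upwards [hd, e] with x h1 h2
  rw [h1, h2]

lemma isExt_of_gen (hF : Target_Fix) {ι : Type u} [LinearOrder ι] {U : ι → Ultrafilter ℕ}
    (hU : GoodChain U) {f : ι → ι → ℕ → ℕ} {W : Ultrafilter ℕ} {g : ι → ℕ → ℕ}
    (hf : Chain U f) (hW : Gen U f W g) : IsExt U W where
  le a := ⟨g a, (hW.map_g a).symm⟩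
  rigid := gen_rigid hF hU hW
  min h := by
    rcases hW.func h with hX | ⟨a, k, hk⟩
    · exact Or.inl hX
    · refine Or.inr ⟨a, k, ?_⟩
      rw [← hW.map_g a, Ultrafilter.map_map]
      exact map_congr hk
  tight a p hp := by
    refine tight_congr ?_ (gen_tight hf hW a)
    exact gen_rigid hF hU hW p (g a) (by rw [hp, hW.map_g])
  big a p hp X hX hi := by
    have e := gen_rigid hF hU hW p (g a) (by rw [hp, hW.map_g])
    obtain ⟨y, hy⟩ := (hW.large a (X ∩ {x | p x = g a x}) (inter_mem hX e)).exists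
    obtain ⟨x, hx, x', hx', hne⟩ := hy.nontrivial
    refine hne (hi hx.1.1 hx'.1.1 ?_)
    have h1 : p x = g a x := hx.1.2
    have h2 : p x' = g a x' := hx'.1.2
    rw [h1, h2, hx.2, hx'.2]

/-- From a generic directed set to an ultrafilter. -/
lemma exists_gen {ι : Type u} [LinearOrder ι] [Nonempty ι] {U : ι → Ultrafilter ℕ}
    {f : ι → ι → ℕ → ℕ} (G : Set (State U f)) (hne : G.Nonempty)
    (hdir : DirectedOn (· ≤ ·) G) (hC : ∀ a, ∃ q ∈ G, a ∈ q.C)
    (hA : ∀ a, ∀ A ∈ U a, ∃ q ∈ G, a ∈ q.C ∧ q.g a ⁻¹' A ∈ q.F)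
    (hh : ∀ h : ℕ → ℕ, ∃ q ∈ G, (∃ X ∈ q.F, InjOn h X) ∨
        ∃ a ∈ q.C, ∃ k : ℕ → ℕ, ∃ X ∈ q.F, ∀ x ∈ X, h x = k (q.g a x)) :
    ∃ (W : Ultrafilter ℕ) (g : ι → ℕ → ℕ), Gen U f W g ∧ ∀ q ∈ G, ∀ X ∈ q.F, X ∈ W := by
  classical
  choose pa hpa using hC
  set g : ι → ℕ → ℕ := fun a => (pa a).g a with hg
  have hgq : ∀ q ∈ G, ∀ a ∈ q.C, q.g a = g a := by
    intro q hq a ha
    obtain ⟨r, _, h1, h2⟩ := hdir q hq (pa a) (hpa a).1
    exact (h1.2.1 a ha).symm.trans (h2.2.1 a (hpa a).2)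
  let FF : Filter ℕ :=
    { sets := {X | ∃ p ∈ G, X ∈ p.F}
      univ_sets := by obtain ⟨p, hp⟩ := hne; exact ⟨p, hp, univ_mem⟩
      sets_of_superset := by
        rintro X Y ⟨p, hp, hX⟩ hXY
        exact ⟨p, hp, mem_of_superset hX hXY⟩
      inter_sets := by
        rintro X Y ⟨p, hp, hX⟩ ⟨q, hq, hY⟩
        obtain ⟨r, hr, h1, h2⟩ := hdir p hp q hq
        exact ⟨r, hr, inter_mem (h1.2.2 hX) (h2.2.2 hY)⟩ }
  have memF : ∀ X, X ∈ FF ↔ ∃ p ∈ G, X ∈ p.F := fun X => Iff.rfl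
  have F1 : ∀ a, ∀ A ∈ U a, g a ⁻¹' A ∈ FF := by
    intro a A hAa
    obtain ⟨q, hq, ha, h1⟩ := hA a A hAa
    rw [hgq q hq a ha] at h1
    exact ⟨q, hq, h1⟩
  have F3 : ∀ B ∈ FF, ∀ a, ∀ᶠ y in (U a : Filter ℕ), {x | x ∈ B ∧ g a x = y}.Infinite := by
    rintro B ⟨p, hp, hB⟩ a
    obtain ⟨r, hr, h1, h2⟩ := hdir p hp (pa a) (hpa a).1
    have ha := h2.1 (hpa a).2
    have := r.large a ha B (h1.2.2 hB)
    rw [hgq r hr a ha] at this
    exact this
  have F2 : ∀ {a b}, a ≤ b → ∀ᶠ x in FF, f a b (g b x) = g a x := by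
    intro a b hab
    obtain ⟨r, hr, h1, h2⟩ := hdir (pa a) (hpa a).1 (pa b) (hpa b).1
    have ha := h1.1 (hpa a).2
    have hb := h2.1 (hpa b).2
    obtain ⟨A, hAb, B, hB, hco⟩ := r.coh a ha b hb hab
    rw [hgq r hr a ha, hgq r hr b hb] at hco
    have hB' : B ∈ FF := ⟨r, hr, hB⟩
    filter_upwards [hB', F1 b A hAb] with x hx1 hx2
    exact hco x hx1 hx2
  have F4 : ∀ h : ℕ → ℕ, (∃ X ∈ FF, InjOn h X) ∨
      ∃ a, ∃ k : ℕ → ℕ, ∀ᶠ x in FF, h x = k (g a x) := by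
    intro h
    obtain ⟨q, hq, ⟨X, hX, hi⟩ | ⟨a, ha, k, X, hX, hk⟩⟩ := hh h
    · exact Or.inl ⟨X, ⟨q, hq, hX⟩, hi⟩
    · refine Or.inr ⟨a, k, ?_⟩
      rw [hgq q hq a ha] at hk
      exact mem_of_superset (show X ∈ FF from ⟨q, hq, hX⟩) hk
  obtain ⟨a₀⟩ := (inferInstance : Nonempty ι)
  have Finf : ∀ B ∈ FF, B.Infinite := by
    intro B hB
    obtain ⟨y, hy⟩ := (F3 B hB a₀).exists
    exact hy.mono fun x hx => hx.1
  have ultra : ∀ S : Set ℕ, Sᶜ ∉ FF ↔ S ∈ FF := by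
    intro S
    constructor
    · intro hS
      set h : ℕ → ℕ := fun x => if x ∈ S then 1 else 0 with hh'
      rcases F4 h with ⟨X, hX, hi⟩ | ⟨a, k, hk⟩
      · exfalso
        have h1 : (h '' X).Infinite := (Finf X hX).image hi
        refine h1 ((Set.toFinite ({0, 1} : Set ℕ)).subset ?_)
        rintro _ ⟨x, _, rfl⟩
        simp only [hh']
        split_ifs <;> simp
      · rcases (U a).mem_or_compl_mem {y | k y = 1} with h1 | h1
        · have h2 := F1 a _ h1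
          filter_upwards [hk, h2] with x x1 x2
          have x2' : k (g a x) = 1 := x2
          by_contra hxS
          rw [x2'] at x1
          simp [hh', hxS] at x1
        · exfalso
          apply hS
          have h2 := F1 a _ h1
          filter_upwards [hk, h2] with x x1 x2
          have x2' : ¬ k (g a x) = 1 := x2
          intro hxS
          apply x2'
          rw [← x1]
          simp [hh', hxS]
    · intro hS hSc
      have := Finf _ (inter_mem hS hSc)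
      rw [inter_compl_self] at this
      exact this finite_empty
  set W : Ultrafilter ℕ := Ultrafilter.ofComplNotMemIff FF ultra with hWdef
  have hWF : (W : Filter ℕ) = FF := rfl
  refine ⟨W, g, ⟨?_, ?_, ?_, ?_⟩, ?_⟩
  · intro a
    apply Ultrafilter.eq_of_le
    intro A hAa
    have : g a ⁻¹' A ∈ FF := F1 a A hAa
    exact this
  · intro a b hab
    exact F2 hab
  · intro a B hB
    exact F3 B hB a
  · exact F4
  · intro q hq X hX
    exact ⟨q, hq, hX⟩

lemma mk_le_rel (W : Ultrafilter ℕ) {S : Type} (V : S → Ultrafilter ℕ) (hV : Function.Injective V)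
    (T : Set S) (hT : ∀ s ∈ T, RKle (V s) W) : #T ≤ 𝔠 := by
  choose φ hφ using hT
  have hinj : Function.Injective (fun s : T => φ s.1 s.2) := by
    intro s s' h
    apply Subtype.ext
    apply hV
    rw [hφ s.1 s.2, hφ s'.1 s'.2]
    exact congrArg (fun e => W.map e) h
  have := Cardinal.mk_le_of_injective hinj
  refine this.trans (le_of_eq ?_)
  simp

end Pool.Agent.RKT.Ext

namespace Pool.Agent.RKT

universe u

open Ext

/-- The extension theorem. -/
theorem target_Ext (hF : Target_Fix) (hG : Target_Gen.{u, u}) (hAdd : Target_Add.{u})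
    (hFun : Target_Fun.{u}) (hS : Target_Set.{u}) : Target_Ext.{u} := by
  classical
  intro CH ι _ _ hι U hU K hK
  obtain ⟨f, hf⟩ := exists_chain hU
  obtain ⟨hset, hsplit, hub, hne⟩ := hS ι U f hf
  obtain ⟨p₀⟩ := hne inferInstance
  -- the dense sets
  let J : Type u := (ι ⊕ (ι × Set ℕ)) ⊕ (ℕ → ℕ)
  let D : J → Set (State U f) := fun j => match j with
    | Sum.inl (Sum.inl a) => {q | a ∈ q.C}
    | Sum.inl (Sum.inr (a, A)) => {q | a ∈ q.C ∧ (A ∈ U a → q.g a ⁻¹' A ∈ q.F)}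
    | Sum.inr h => {q | (∃ X ∈ q.F, InjOn h X) ∨
        ∃ a ∈ q.C, ∃ k : ℕ → ℕ, ∃ X ∈ q.F, ∀ x ∈ X, h x = k (q.g a x)}
  have hJ : #J ≤ ℵ_ 1 := by
    have h1 : #(ι × Set ℕ) ≤ ℵ_ 1 := by
      rw [Cardinal.mk_prod]
      have h2 : Cardinal.lift.{0} #ι ≤ ℵ_ 1 := by simpa using hι
      have h3 : Cardinal.lift.{u} #(Set ℕ) ≤ ℵ_ 1 := by
        rw [Cardinal.mk_set, Cardinal.mk_nat, Cardinal.two_power_aleph0, CH]
        simp
      refine (mul_le_mul' h2 h3).trans ?_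
      rw [Cardinal.mul_eq_self (Cardinal.aleph0_le_aleph 1)]
    have h4 : Cardinal.lift.{u} #(ℕ → ℕ) ≤ ℵ_ 1 := by
      have : #(ℕ → ℕ) = 𝔠 := by simp
      rw [this, CH]
      simp
    have h5 : #J = (#ι + #(ι × Set ℕ)) + Cardinal.lift.{u} #(ℕ → ℕ) := by
      simp only [J, Cardinal.mk_sum, Cardinal.lift_id, Cardinal.lift_add]
      simp
    rw [h5]
    refine (add_le_add (add_le_add hι h1) h4).trans ?_
    rw [Cardinal.add_eq_self (Cardinal.aleph0_le_aleph 1),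
      Cardinal.add_eq_self (Cardinal.aleph0_le_aleph 1)]
  have hD : ∀ j p, ∃ q ∈ D j, p ≤ q := by
    rintro ((a | ⟨a, A⟩) | h) p
    · obtain ⟨q, h1, h2⟩ := hAdd ι U f hf p a
      exact ⟨q, h1, h2⟩
    · obtain ⟨q, h1, h2⟩ := hAdd ι U f hf p a
      by_cases hA : A ∈ U a
      · obtain ⟨r, h3, h4⟩ := hset q a h1 A hA
        exact ⟨r, ⟨h3.1 h1, fun _ => h4⟩, h2.trans h3⟩
      · exact ⟨q, ⟨h1, fun h => absurd h hA⟩, h2⟩
    · obtain ⟨q, h1, h2⟩ := hFun ι U f hf p h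
      exact ⟨q, h2, h1⟩
  have hI : #(Set ℕ) = ℵ_ 1 := by
    rw [Cardinal.mk_set, Cardinal.mk_nat, Cardinal.two_power_aleph0, CH]
  obtain ⟨G, hG1, hG2⟩ := hG (State U f) p₀
    (fun q₀ q₁ => ∃ X₀ ∈ q₀.F, ∃ X₁ ∈ q₁.F, Disjoint X₀ X₁) (Set ℕ) J D hub hsplit
    (by
      rintro q₀ q₁ r₀ r₁ ⟨X₀, h0, X₁, h1, hd⟩ hr0 hr1
      exact ⟨X₀, hr0.2.2 h0, X₁, hr1.2.2 h1, hd⟩) hI hJ hD
  have key : ∀ η, ∃ (W : Ultrafilter ℕ) (g : ι → ℕ → ℕ), Gen U f W g ∧
      ∀ q ∈ G η, ∀ X ∈ q.F, X ∈ W := by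
    intro η
    obtain ⟨h1, h2, _, h3⟩ := hG1 η
    refine exists_gen (G η) h1 h2 ?_ ?_ ?_
    · intro a
      obtain ⟨q, hq, hD⟩ := h3 (Sum.inl (Sum.inl a))
      exact ⟨q, hq, hD⟩
    · intro a A hA
      obtain ⟨q, hq, hD⟩ := h3 (Sum.inl (Sum.inr (a, A)))
      exact ⟨q, hq, hD.1, hD.2 hA⟩
    · intro h
      obtain ⟨q, hq, hD⟩ := h3 (Sum.inr h)
      exact ⟨q, hq, hD⟩
  choose W g hWg hWF using key
  have hWinj : Function.Injective W := by
    intro η η' h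
    by_contra hne'
    have hnot : ∀ (V : Ultrafilter ℕ) (X₀ X₁ : Set ℕ), X₀ ∈ V → X₁ ∈ V → ¬ Disjoint X₀ X₁ := by
      intro V X₀ X₁ h0 h1 hd
      have := inter_mem h0 h1
      rw [hd.inter_eq] at this
      exact V.empty_notMem this
    obtain ⟨q₀, h0, q₁, h1, ⟨X₀, hX0, X₁, hX1, hd⟩ | ⟨X₀, hX0, X₁, hX1, hd⟩⟩ := hG2 η η' hne'
    · refine hnot (W η) X₀ X₁ (hWF η q₀ h0 X₀ hX0) ?_ hd
      rw [h]; exact hWF η' q₁ h1 X₁ hX1
    · refine hnot (W η) X₀ X₁ ?_ (hWF η q₀ h0 X₁ hX1) hd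
      rw [h]; exact hWF η' q₁ h1 X₀ hX0
  -- pass to isomorphism classes
  let r : Setoid (Set ℕ → Bool) :=
    { r := fun η η' => RKle (W η) (W η') ∧ RKle (W η') (W η)
      iseqv := ⟨fun _ => ⟨RKle.refl _, RKle.refl _⟩, fun h => ⟨h.2, h.1⟩,
        fun h h' => ⟨h.1.trans h'.1, h'.2.trans h.2⟩⟩ }
  have hS : #(Set ℕ → Bool) = 2 ^ 𝔠 := by
    simp [← Cardinal.two_power_aleph0]
  have hQ : (2 : Cardinal) ^ 𝔠 ≤ #(Quotient r) := by
    by_contra hlt
    rw [not_le] at hlt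
    have h1 : #(Set ℕ → Bool) ≤ #(Quotient r) * 𝔠 := by
      refine Cardinal.mk_le_mk_mul_of_mk_preimage_le (Quotient.mk r) fun b => ?_
      obtain ⟨η, rfl⟩ := Quotient.exists_rep b
      refine mk_le_rel (W η) W hWinj _ fun η' h' => ?_
      have := Quotient.exact h'
      exact this.1
    rw [hS] at h1
    have h2 : #(Quotient r) * 𝔠 < 2 ^ 𝔠 :=
      Cardinal.mul_lt_of_lt (Cardinal.aleph0_le_continuum.trans (Cardinal.cantor 𝔠).le) hlt
        (Cardinal.cantor 𝔠)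
    exact absurd h1 (not_le.2 h2)
  have hK2 : #K ≤ #(Quotient r) := by
    refine le_trans (le_of_eq ?_) hQ
    rw [hK]
    have h2 : (2 : Ordinal.{0}) = Order.succ 1 := by
      rw [← one_add_one_eq_two]; rfl
    rw [h2, Cardinal.beth_succ, Cardinal.beth_one]
  obtain ⟨e⟩ := hK2
  refine ⟨fun k => W (Quotient.out (e k)), fun k => isExt_of_gen hF hU hf (hWg _), ?_⟩
  intro k k' hkk h
  apply hkk
  apply e.injective
  have : r (Quotient.out (e k)) (Quotient.out (e k')) := h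
  have h2 := Quotient.sound this
  rwa [Quotient.out_eq, Quotient.out_eq] at h2

end Pool.Agent.RKT
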