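import Pool.Agent.RKT.Defs

/-!
# Fixed points of maps on an ultrafilter

JOB FIX: an ultrafilter on `ℕ` fixed by a map concentrates on the fixed points of the map.
-/

open Set Filter

namespace Pool.Agent.RKT

namespace FixAux

/-- No two-colouring is changed by the map on a set of the ultrafilter. -/
lemma no_colouring (W : Ultrafilter ℕ) (e : ℕ → ℕ) (hW : W.map e = W) (P : Set ℕ)
    (hP : ∀ᶠ x in (W : Filter ℕ), (e x ∈ P ↔ x ∉ P)) : False := by
  have key : ∀ Q : Set ℕ, Q ∈ W → e ⁻¹' Q ∈ W := by
    intro Q hQ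
    rw [← hW] at hQ
    exact Ultrafilter.mem_map.1 hQ
  have hP' : {x | e x ∈ P ↔ x ∉ P} ∈ W := hP
  rcases W.mem_or_compl_mem P with h | h
  · have h1 := key P h
    obtain ⟨x, hx⟩ := W.nonempty_of_mem (W.inter_mem (W.inter_mem h h1) hP')
    exact (hx.2.1 hx.1.2) hx.1.1
  · have h1 := key Pᶜ h
    obtain ⟨x, hx⟩ := W.nonempty_of_mem (W.inter_mem (W.inter_mem h h1) hP')
    exact hx.1.2 (hx.2.2 hx.1.1)

/-- Number of decreasing steps. -/
noncomputable def steps (e : ℕ → ℕ) (x : ℕ) : ℕ :=
  if h : e x < x then steps e (e x) + 1 else 0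
termination_by x
decreasing_by exact h

lemma decr (W : Ultrafilter ℕ) (e : ℕ → ℕ) (hW : W.map e = W)
    (h : ∀ᶠ x in (W : Filter ℕ), e x < x) : False := by
  apply no_colouring W e hW {x | Even (steps e x)}
  filter_upwards [h] with x hx
  have : steps e x = steps e (e x) + 1 := by
    rw [steps.eq_def e x, dif_pos hx]
  simp only [this, Nat.even_add_one, not_not, Set.mem_ofPred_eq]

section Incr

variable {e : ℕ → ℕ} (he : ∀ x, x < e x)

include he

lemma iter_lt (x : ℕ) {i j : ℕ} (hij : i < j) : e^[i] x < e^[j] x := by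
  induction j with
  | zero => exact absurd hij (Nat.not_lt_zero _)
  | succ j ih =>
    rw [Function.iterate_succ_apply']
    rcases Nat.lt_succ_iff_lt_or_eq.1 hij with h | h
    · exact (ih h).trans (he _)
    · subst h
      exact he _

lemma iter_inj (x : ℕ) {i j : ℕ} (hij : e^[i] x = e^[j] x) : i = j := by
  rcases lt_trichotomy i j with h | h | h
  · exact absurd hij (iter_lt he x h).ne
  · exact h
  · exact absurd hij (iter_lt he x h).ne'

lemma wd {x r i j i' j' : ℕ} (h : e^[i] x = e^[j] r) (h' : e^[i'] x = e^[j'] r) :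
    i + j' = i' + j := by
  rcases le_total i i' with hii | hii
  · obtain ⟨k, rfl⟩ := Nat.exists_eq_add_of_le hii
    have : e^[k + j] r = e^[j'] r := by
      rw [← h', add_comm i k, Function.iterate_add_apply, Function.iterate_add_apply, h]
    have := iter_inj he r this
    omega
  · obtain ⟨k, rfl⟩ := Nat.exists_eq_add_of_le hii
    have : e^[k + j'] r = e^[j] r := by
      rw [← h, add_comm i' k, Function.iterate_add_apply, Function.iterate_add_apply, h']
    have := iter_inj he r this
    omega

end Incr

/-- Two points have meeting orbits. -/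
def meet (e : ℕ → ℕ) : Setoid ℕ where
  r x y := ∃ i j, e^[i] x = e^[j] y
  iseqv := by
    refine ⟨fun x => ⟨0, 0, rfl⟩, fun ⟨i, j, h⟩ => ⟨j, i, h.symm⟩, ?_⟩
    rintro x y z ⟨i, j, h⟩ ⟨k, l, h'⟩
    refine ⟨k + i, j + l, ?_⟩
    rw [Function.iterate_add_apply, h, Function.iterate_add_apply e j l, ← h',
      ← Function.iterate_add_apply, ← Function.iterate_add_apply, add_comm]

lemma incr' (W : Ultrafilter ℕ) (e : ℕ → ℕ) (hW : W.map e = W) (he : ∀ x, x < e x) : False := by
  classical
  let rep : ℕ → ℕ := fun x => (Quotient.mk (meet e) x).out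
  have hrep : ∀ x, ∃ i j, e^[i] x = e^[j] (rep x) := fun x => by
    have : (meet e).r (rep x) x := Quotient.exact (Quotient.out_eq (Quotient.mk (meet e) x))
    exact (meet e).iseqv.symm this
  have hrep' : ∀ x, rep (e x) = rep x := fun x => by
    have : Quotient.mk (meet e) (e x) = Quotient.mk (meet e) x := Quotient.sound ⟨0, 1, rfl⟩
    simp only [rep, this]
  choose i j hij using hrep
  apply no_colouring W e hW {x | Even (i x + j x)}
  refine Filter.Eventually.of_forall fun x => ?_
  have h1 : e^[i (e x) + 1] x = e^[j (e x)] (rep x) := by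
    rw [Function.iterate_succ_apply, hij (e x), hrep']
  have h2 := wd he (hij x) h1
  have h3 : i (e x) + j (e x) + 1 + 2 * j x = i x + j x + 2 * j (e x) := by omega
  simp only [Set.mem_ofPred_eq]
  constructor
  · rintro ⟨a, ha⟩ ⟨b, hb⟩
    omega
  · intro h
    rw [Nat.not_even_iff_odd] at h
    obtain ⟨b, hb⟩ := h
    rw [Nat.even_iff]
    omega

lemma incr (W : Ultrafilter ℕ) (e : ℕ → ℕ) (hW : W.map e = W)
    (h : ∀ᶠ x in (W : Filter ℕ), x < e x) : False := by
  classical
  let e' : ℕ → ℕ := fun x => if x < e x then e x else x + 1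
  have he' : ∀ x, x < e' x := by
    intro x
    by_cases hx : x < e x
    · simp only [e', hx, if_true]
    · simp only [e', hx, if_false]
      omega
  have hW' : W.map e' = W := by
    have : (W.map e' : Filter ℕ) = (W.map e : Filter ℕ) := by
      rw [Ultrafilter.coe_map, Ultrafilter.coe_map]
      apply Filter.map_congr
      filter_upwards [h] with x hx
      simp only [e', hx, if_true]
    rw [Ultrafilter.coe_injective this, hW]
  exact incr' W e' hW' he'

end FixAux

theorem target_Fix : Target_Fix := by
  intro W e hW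
  by_contra hne
  rw [← Ultrafilter.eventually_not] at hne
  have : ∀ᶠ x in (W : Filter ℕ), e x < x ∨ x < e x := by
    filter_upwards [hne] with x hx
    exact lt_or_gt_of_ne hx
  rcases Ultrafilter.eventually_or.1 this with h | h
  · exact FixAux.decr W e hW h
  · exact FixAux.incr W e hW h

end Pool.Agent.RKT
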