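import Pool.Agent.RKT.Defs

/-!
# Job FUN: a function can be made injective, or to factor through the state
-/

open Set Filter Cardinal

namespace Pool.Agent.RKT

universe u v

namespace FunJob

/-- Greedy choice: one set on which `h` is injective, meeting countably many sets with infinite
`h`-image in infinite sets. -/
lemma greedy {I : Type*} [Countable I] (S : I → Set ℕ) (h : ℕ → ℕ)
    (hS : ∀ i, (h '' S i).Infinite) :
    ∃ X : Set ℕ, InjOn h X ∧ ∀ i, {x | x ∈ S i ∧ x ∈ X}.Infinite := by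
  classical
  rcases isEmpty_or_nonempty I with hI | hI
  · exact ⟨∅, by simp, fun i => (hI.false i).elim⟩
  obtain ⟨e, he⟩ := exists_surjective_nat (I × ℕ)
  have key : ∀ (i : I) (T : Finset ℕ), ∃ x ∈ S i, h x ∉ T.image h := by
    intro i T
    obtain ⟨y, hy, hyT⟩ := (hS i).exists_notMem_finset (T.image h)
    obtain ⟨x, hx, rfl⟩ := hy
    exact ⟨x, hx, hyT⟩
  choose ch ch1 ch2 using key
  let T : ℕ → Finset ℕ := fun n => Nat.rec ∅ (fun n T => insert (ch (e n).1 T) T) n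
  have hT : ∀ n, T (n + 1) = insert (ch (e n).1 (T n)) (T n) := fun n => rfl
  have hmono : Monotone T := monotone_nat_of_le_succ (fun n => by
    rw [hT]; exact Finset.subset_insert _ _)
  let x : ℕ → ℕ := fun n => ch (e n).1 (T n)
  have hx1 : ∀ n, x n ∈ S (e n).1 := fun n => ch1 _ _
  have hxT : ∀ m n, m < n → x m ∈ T n := by
    intro m n hmn
    apply hmono (Nat.succ_le_of_lt hmn)
    rw [Nat.succ_eq_add_one, hT]
    exact Finset.mem_insert_self _ _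
  have hne : ∀ m n, m < n → h (x m) ≠ h (x n) := by
    intro m n hmn heq
    apply ch2 (e n).1 (T n)
    rw [Finset.mem_image]
    exact ⟨x m, hxT m n hmn, heq⟩
  have hinj : Function.Injective (h ∘ x) := by
    intro m n hmn
    rcases lt_trichotomy m n with hlt | heq | hlt
    · exact absurd hmn (hne m n hlt)
    · exact heq
    · exact absurd hmn.symm (hne n m hlt)
  refine ⟨range x, ?_, ?_⟩
  · rintro _ ⟨m, rfl⟩ _ ⟨n, rfl⟩ hmn
    rw [hinj hmn]
  · intro i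
    have hinj' : Function.Injective x := Function.Injective.of_comp hinj
    have hk : ∀ k : ℕ, ∃ n, e n = (i, k) := fun k => he (i, k)
    choose n hn using hk
    have hninj : Function.Injective n := by
      intro k l hkl
      have h1 := hn k
      rw [hkl, hn l] at h1
      exact (Prod.mk.inj h1).2.symm
    refine Set.Infinite.mono ?_ (Set.infinite_range_of_injective (hinj'.comp hninj))
    rintro _ ⟨k, rfl⟩
    refine ⟨?_, mem_range_self _⟩
    have := hx1 (n k)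
    rw [hn k] at this
    exact this

/-- Selection from countably many compatible finite sets. -/
lemma select (W : Filter ℕ) (D : ℕ → ℕ → Finset ℕ)
    (hD : ∀ j, ∀ᶠ y in W, ∃ v, ∀ k ≤ j, v ∈ D k y) :
    ∃ v : ℕ → ℕ, ∀ k, ∀ᶠ y in W, v y ∈ D k y := by
  classical
  have key : ∀ y, ∃ v, ∀ j, (∃ v, ∀ k ≤ j, v ∈ D k y) → v ∈ D j y := by
    intro y
    by_cases hall : ∀ j, ∃ v, ∀ k ≤ j, v ∈ D k y
    · have h1 : (⋂ j, {v | ∀ k ≤ j, v ∈ D k y}).Nonempty := by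
        apply IsCompact.nonempty_iInter_of_sequence_nonempty_isCompact_isClosed
        · intro i v hv k hk
          exact hv k (hk.trans (Nat.le_succ i))
        · intro i
          exact hall i
        · apply Set.Finite.isCompact
          apply (D 0 y).finite_toSet.subset
          intro v hv
          exact hv 0 le_rfl
        · intro i
          exact isClosed_discrete _
      obtain ⟨v, hv⟩ := h1
      refine ⟨v, fun j _ => ?_⟩
      rw [mem_iInter] at hv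
      exact hv j j le_rfl
    · push Not at hall
      obtain ⟨j0, hj0⟩ := hall
      have hex : ∃ j, ∀ v, ∃ k ≤ j, v ∉ D k y := ⟨j0, hj0⟩
      by_cases hz : Nat.find hex = 0
      · refine ⟨0, fun j hj => ?_⟩
        exfalso
        obtain ⟨v, hv⟩ := hj
        obtain ⟨k, hk, hkv⟩ := Nat.find_spec hex v
        rw [hz] at hk
        exact hkv (hv k (hk.trans (Nat.zero_le _)))
      · obtain ⟨m, hm⟩ := Nat.exists_eq_succ_of_ne_zero hz
        have hmin := Nat.find_min hex (m := m) (by omega)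
        push Not at hmin
        obtain ⟨v, hv⟩ := hmin
        refine ⟨v, fun j hj => ?_⟩
        by_cases hjm : j ≤ m
        · exact hv j hjm
        · exfalso
          obtain ⟨w, hw⟩ := hj
          obtain ⟨k, hk, hkw⟩ := Nat.find_spec hex w
          exact hkw (hw k (by omega))
  choose v hv using key
  exact ⟨v, fun k => (hD k).mono fun y hy => hv y k hy⟩

variable {ι : Type u} [LinearOrder ι] {U : ι → Ultrafilter ℕ} {f : ι → ι → ℕ → ℕ}

/-- A property pulled back along the chain. -/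
lemma ev_map (hc : Chain U f) {a b : ι} (hab : a ≤ b) {P : ℕ → Prop} :
    (∀ᶠ y in (U a : Filter ℕ), P y) ↔ ∀ᶠ y in (U b : Filter ℕ), P (f a b y) := by
  rw [← hc.map_eq hab]
  rfl

/-- Largeness of fibres goes down. -/
lemma down (hc : Chain U f) (p : State U f) {F' : Filter ℕ} (hF : F' ≤ p.F) {a b : ι}
    (ha : a ∈ p.C) (hb : b ∈ p.C) (hab : a ≤ b)
    (h : ∀ B ∈ F', ∀ᶠ y in (U b : Filter ℕ), {x | x ∈ B ∧ p.g b x = y}.Infinite) :
    ∀ B ∈ F', ∀ᶠ y in (U a : Filter ℕ), {x | x ∈ B ∧ p.g a x = y}.Infinite := by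
  intro B hB
  obtain ⟨A, hA, B0, hB0, hcoh⟩ := p.coh a ha b hb hab
  have h1 := h (B ∩ B0) (inter_mem hB (hF hB0))
  rw [ev_map hc hab]
  filter_upwards [h1, hA] with y hy hyA
  refine hy.mono ?_
  rintro x ⟨⟨hxB, hxB0⟩, hxy⟩
  refine ⟨hxB, ?_⟩
  have := hcoh x hxB0 (by rw [hxy]; exact hyA)
  rw [← this, hxy]

/-- Adding a compatible set to a state. -/
def addSet (p : State U f) (X : Set ℕ)
    (hX : ∀ a ∈ p.C, ∀ B ∈ p.F ⊓ 𝓟 X, ∀ᶠ y in (U a : Filter ℕ),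
      {x | x ∈ B ∧ p.g a x = y}.Infinite) : State U f where
  C := p.C
  g := p.g
  F := p.F ⊓ 𝓟 X
  countable := p.countable
  nonempty := p.nonempty
  cg := by have := p.cg; infer_instance
  coh := by
    intro a ha b hb hab
    obtain ⟨A, hA, B, hB, h⟩ := p.coh a ha b hb hab
    exact ⟨A, hA, B, mem_inf_of_left hB, h⟩
  large := hX

lemma le_addSet (p : State U f) (X : Set ℕ)
    (hX : ∀ a ∈ p.C, ∀ B ∈ p.F ⊓ 𝓟 X, ∀ᶠ y in (U a : Filter ℕ),
      {x | x ∈ B ∧ p.g a x = y}.Infinite) : p ≤ addSet p X hX :=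
  ⟨Subset.rfl, fun _ _ => rfl, inf_le_left⟩

lemma mem_addSet (p : State U f) (X : Set ℕ)
    (hX : ∀ a ∈ p.C, ∀ B ∈ p.F ⊓ 𝓟 X, ∀ᶠ y in (U a : Filter ℕ),
      {x | x ∈ B ∧ p.g a x = y}.Infinite) : X ∈ (addSet p X hX).F :=
  mem_inf_of_right (mem_principal_self X)

/-- Case 1. -/
lemma case1 (p : State U f) (h : ℕ → ℕ)
    (h1 : ∀ a ∈ p.C, ∀ B ∈ p.F, ∀ᶠ y in (U a : Filter ℕ),
      (h '' {x | x ∈ B ∧ p.g a x = y}).Infinite) :
    ∃ q : State U f, p ≤ q ∧ ∃ X ∈ q.F, InjOn h X := by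
  have := p.cg
  obtain ⟨Bas, hBas⟩ := p.F.exists_antitone_basis
  have : Countable p.C := p.countable.to_subtype
  let S : p.C × ℕ × ℕ → Set ℕ := fun i => {x | x ∈ Bas i.2.1 ∧ p.g i.1 x = i.2.2}
  let I := {i : p.C × ℕ × ℕ // (h '' S i).Infinite}
  obtain ⟨X, hXi, hX⟩ := greedy (I := I) (fun i => S i.1) h (fun i => i.2)
  have hX' : ∀ a ∈ p.C, ∀ B ∈ p.F ⊓ 𝓟 X, ∀ᶠ y in (U a : Filter ℕ),
      {x | x ∈ B ∧ p.g a x = y}.Infinite := by
    intro a ha B hB
    rw [mem_inf_principal] at hB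
    obtain ⟨m, -, hm⟩ := hBas.toHasBasis.mem_iff.1 hB
    filter_upwards [h1 a ha (Bas m) (hBas.toHasBasis.mem_of_mem trivial)] with y hy
    refine (hX ⟨(⟨a, ha⟩, m, y), hy⟩).mono ?_
    rintro x ⟨⟨hx1, hx2⟩, hx3⟩
    exact ⟨hm hx1 hx3, hx2⟩
  exact ⟨addSet p X hX', le_addSet p X hX', X, mem_addSet p X hX', hXi⟩

/-- The set of values taken infinitely often on a fibre. -/
def vals (h g : ℕ → ℕ) (B : Set ℕ) (z : ℕ) : Set ℕ := {v | {x | x ∈ B ∧ g x = z ∧ h x = v}.Infinite}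

lemma vals_nonempty {h g : ℕ → ℕ} {B : Set ℕ} {z : ℕ} {V : Set ℕ} (hV : V.Finite)
    (hB : {x | x ∈ B ∧ g x = z}.Infinite) (hBV : ∀ x ∈ B, g x = z → h x ∈ V) :
    (vals h g B z).Nonempty := by
  by_contra hne
  rw [Set.not_nonempty_iff_eq_empty] at hne
  apply hB
  have : {x | x ∈ B ∧ g x = z} ⊆ ⋃ v ∈ V, {x | x ∈ B ∧ g x = z ∧ h x = v} := by
    rintro x ⟨hx, hxz⟩
    rw [mem_iUnion₂]
    exact ⟨h x, hBV x hx hxz, hx, hxz, rfl⟩
  refine (Set.Finite.biUnion hV ?_).subset this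
  intro v _
  by_contra hinf
  have : v ∈ vals h g B z := hinf
  rw [hne] at this
  exact this

lemma vals_subset {h g : ℕ → ℕ} {B : Set ℕ} {z : ℕ} {V : Set ℕ}
    (hBV : ∀ x ∈ B, g x = z → h x ∈ V) : vals h g B z ⊆ V := by
  intro v hv
  obtain ⟨x, hx, hxz, hxv⟩ := Set.Infinite.nonempty hv
  rw [← hxv]
  exact hBV x hx hxz

/-- Tightness for finite set valued functions. -/
lemma tight_sets {W : Ultrafilter ℕ} {π : ℕ → ℕ} (ht : Tight W π) (c : ℕ → Set ℕ)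
    (V : ℕ → Set ℕ) (hc : ∀ᶠ z in (W : Filter ℕ), c z ⊆ V (π z) ∧ (V (π z)).Finite) :
    ∃ D : ℕ → Finset ℕ, ∀ᶠ z in (W : Filter ℕ), c z = (D (π z) : Set ℕ) := by
  classical
  let code : Set ℕ → ℕ := fun s => if hs : s.Finite then Encodable.encode hs.toFinset else 0
  have hfv : FinVal W π (fun z => code (c z)) := by
    refine ⟨{z | c z ⊆ V (π z) ∧ (V (π z)).Finite}, hc, ?_⟩
    intro y
    by_cases hy : (V y).Finite
    · have h1 : (code '' (𝒫 (V y))).Finite := (hy.finite_subsets).image _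
      refine h1.subset ?_
      rintro _ ⟨z, ⟨⟨hz1, hz2⟩, rfl⟩, rfl⟩
      exact ⟨c z, hz1, rfl⟩
    · have : {x | x ∈ {z | c z ⊆ V (π z) ∧ (V (π z)).Finite} ∧ π x = y} = ∅ := by
        rw [Set.eq_empty_iff_forall_notMem]
        rintro z ⟨⟨_, hz2⟩, rfl⟩
        exact hy hz2
      rw [this]
      simp
  obtain ⟨d, hd⟩ := ht _ hfv
  refine ⟨fun y => (Encodable.decode (α := Finset ℕ) (d y)).getD ∅, ?_⟩
  filter_upwards [hd, hc] with z hz hcz
  have hfin : (c z).Finite := hcz.2.subset hcz.1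
  have h2 : code (c z) = Encodable.encode hfin.toFinset := by
    simp only [code, dif_pos hfin]
  rw [← hz]
  show c z = ((Encodable.decode (α := Finset ℕ) (code (c z))).getD ∅ : Finset ℕ)
  rw [h2, Encodable.encodek]
  simp

/-- Case 2. -/
lemma case2 (hc : Chain U f) (p : State U f) (h : ℕ → ℕ) (a₀ : ι) (ha₀ : a₀ ∈ p.C) (B₀ : Set ℕ)
    (hB₀ : B₀ ∈ p.F)
    (hfin : ∀ᶠ y in (U a₀ : Filter ℕ), (h '' {x | x ∈ B₀ ∧ p.g a₀ x = y}).Finite) :
    ∃ q : State U f, p ≤ q ∧ ∃ a ∈ q.C, ∃ k : ℕ → ℕ, ∃ X ∈ q.F, ∀ x ∈ X, h x = k (q.g a x) := by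
  classical
  have := p.cg
  obtain ⟨Bas, hBas⟩ := p.F.exists_antitone_basis
  have : Countable p.C := p.countable.to_subtype
  let V : ℕ → Set ℕ := fun y => h '' {x | x ∈ B₀ ∧ p.g a₀ x = y}
  -- coherence data
  have hcoh := p.coh
  -- the key facts at an index `b ≥ a₀`
  have key : ∀ b ∈ p.C, a₀ ≤ b → ∀ A ∈ U b, ∀ K ∈ p.F, K ⊆ B₀ →
      (∀ x ∈ K, p.g b x ∈ A → f a₀ b (p.g b x) = p.g a₀ x) → ∀ B ∈ p.F, B ⊆ K →
      ∀ᶠ z in (U b : Filter ℕ), (vals h (p.g b) B z).Nonempty ∧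
        vals h (p.g b) B z ⊆ V (f a₀ b z) ∧ (V (f a₀ b z)).Finite := by
    intro b hb hab A hA K hK hKB hAK B hB hBK
    filter_upwards [hA, (ev_map hc hab).1 hfin, p.large b hb B hB] with z hzA hzfin hzinf
    have hBV : ∀ x ∈ B, p.g b x = z → h x ∈ V (f a₀ b z) := by
      intro x hx hxz
      refine ⟨x, ⟨hKB (hBK hx), ?_⟩, rfl⟩
      rw [← hAK x (hBK hx) (by rw [hxz]; exact hzA), hxz]
    exact ⟨vals_nonempty hzfin hzinf hBV, vals_subset hBV, hzfin⟩
  -- data for each index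
  let J := {a : ι // a ∈ p.C ∧ a₀ ≤ a}
  have : Countable J := by
    have : Function.Injective (fun j : J => (⟨j.1, j.2.1⟩ : p.C)) := by
      intro i j hij
      exact Subtype.ext (congrArg (fun t : p.C => t.1) hij)
    exact this.countable
  have hJ : ∀ j : J, ∃ A ∈ U j.1, ∃ K ∈ p.F, K ⊆ B₀ ∧
      ∀ x ∈ K, p.g j.1 x ∈ A → f a₀ j.1 (p.g j.1 x) = p.g a₀ x := by
    intro j
    obtain ⟨A, hA, B, hB, h1⟩ := hcoh a₀ ha₀ j.1 j.2.1 j.2.2
    exact ⟨A, hA, B ∩ B₀, inter_mem hB hB₀, inter_subset_right, fun x hx => h1 x hx.1⟩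
  choose A hA K hK hKB hAK using hJ
  let Bi : J × ℕ → Set ℕ := fun i => Bas i.2 ∩ K i.1
  have hBi : ∀ i, Bi i ∈ p.F := fun i =>
    inter_mem (hBas.toHasBasis.mem_of_mem trivial) (hK i.1)
  have hD : ∀ i : J × ℕ, ∃ D : ℕ → Finset ℕ, ∀ᶠ z in (U i.1.1 : Filter ℕ),
      vals h (p.g i.1.1) (Bi i) z = (D (f a₀ i.1.1 z) : Set ℕ) := by
    intro i
    apply tight_sets (hc.tight i.1.2.2) _ V
    exact (key i.1.1 i.1.2.1 i.1.2.2 (A i.1) (hA i.1) (K i.1) (hK i.1) (hKB i.1) (hAK i.1) (Bi i)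
      (hBi i) inter_subset_right).mono fun z hz => hz.2
  choose D hD using hD
  have : Nonempty J := ⟨⟨a₀, ha₀, le_rfl⟩⟩
  obtain ⟨e, he⟩ := exists_surjective_nat (J × ℕ)
  -- finite intersections
  have hfi : ∀ j, ∀ᶠ y in (U a₀ : Filter ℕ), ∃ v, ∀ k ≤ j, v ∈ D (e k) y := by
    intro j
    -- the largest index
    obtain ⟨k0, hk0, hmax⟩ := Finset.exists_max_image (Finset.range (j + 1))
      (fun k => (e k).1.1) ⟨0, by simp⟩
    set b : J := (e k0).1 with hb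
    have hle : ∀ k ≤ j, (e k).1.1 ≤ b.1 := fun k hk => hmax k (by
      rw [Finset.mem_range]; omega)
    have hcoh2 : ∀ k : ℕ, ∃ A' ∈ U b.1, ∃ B' ∈ p.F, k ≤ j → ∀ x ∈ B', p.g b.1 x ∈ A' →
        f (e k).1.1 b.1 (p.g b.1 x) = p.g (e k).1.1 x := by
      intro k
      by_cases hk : k ≤ j
      · obtain ⟨A', hA', B', hB', h1⟩ := hcoh (e k).1.1 (e k).1.2.1 b.1 b.2.1 (hle k hk)
        exact ⟨A', hA', B', hB', fun _ => h1⟩
      · exact ⟨univ, univ_mem, univ, univ_mem, fun h => absurd h hk⟩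
    choose A' hA' B' hB' hAB' using hcoh2
    let B : Set ℕ := K b ∩ ⋂ k ∈ Finset.range (j + 1), (Bi (e k) ∩ B' k)
    have hB : B ∈ p.F := by
      refine inter_mem (hK b) ?_
      rw [Filter.biInter_finset_mem]
      intro k _
      exact inter_mem (hBi _) (hB' k)
    rw [ev_map hc b.2.2]
    have h1 := key b.1 b.2.1 b.2.2 (A b) (hA b) (K b) (hK b) (hKB b) (hAK b) B hB inter_subset_left
    have h2 : ∀ᶠ z in (U b.1 : Filter ℕ), ∀ k ∈ Finset.range (j + 1),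
        z ∈ A' k ∧ f a₀ (e k).1.1 (f (e k).1.1 b.1 z) = f a₀ b.1 z ∧
        vals h (p.g (e k).1.1) (Bi (e k)) (f (e k).1.1 b.1 z) =
          (D (e k) (f a₀ (e k).1.1 (f (e k).1.1 b.1 z)) : Set ℕ) := by
      rw [Filter.eventually_all_finset]
      intro k hk
      have hk' : k ≤ j := by rw [Finset.mem_range] at hk; omega
      filter_upwards [hA' k, hc.comp (e k).1.2.2 (hle k hk'), (ev_map hc (hle k hk')).1 (hD (e k))]
        with z hz1 hz2 hz3
      exact ⟨hz1, hz2, hz3⟩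
    filter_upwards [h1, h2] with z hz1 hz2
    obtain ⟨v, hv⟩ := hz1.1
    refine ⟨v, fun k hk => ?_⟩
    have hk' : k ∈ Finset.range (j + 1) := by rw [Finset.mem_range]; omega
    obtain ⟨h3, h4, h5⟩ := hz2 k hk'
    rw [h4] at h5
    rw [← Finset.mem_coe, ← h5]
    refine Set.Infinite.mono ?_ hv
    rintro x ⟨hx1, hx2, hx3⟩
    have hx4 : x ∈ Bi (e k) ∩ B' k := by
      have := hx1.2
      rw [mem_iInter₂] at this
      exact this k hk'
    refine ⟨hx4.1, ?_, hx3⟩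
    rw [← hAB' k hk x hx4.2 (by rw [hx2]; exact h3), hx2]
  obtain ⟨v, hv⟩ := select (U a₀ : Filter ℕ) (fun j => D (e j)) hfi
  let X : Set ℕ := {x | h x = v (p.g a₀ x)}
  have hup : ∀ a ∈ p.C, a₀ ≤ a → ∀ B ∈ p.F ⊓ 𝓟 X, ∀ᶠ y in (U a : Filter ℕ),
      {x | x ∈ B ∧ p.g a x = y}.Infinite := by
    intro a ha haa B hB
    rw [mem_inf_principal] at hB
    obtain ⟨m, -, hm⟩ := hBas.toHasBasis.mem_iff.1 hB
    let j : J := ⟨a, ha, haa⟩
    obtain ⟨n, hn⟩ := he (j, m)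
    have h1 := hv n
    rw [hn, ev_map hc haa] at h1
    filter_upwards [h1, hD (j, m), hA j] with z hz1 hz2 hz3
    rw [← Finset.mem_coe, ← hz2] at hz1
    refine Set.Infinite.mono ?_ hz1
    rintro x ⟨⟨hx1, hx1'⟩, hx2, hx3⟩
    refine ⟨hm hx1 ?_, hx2⟩
    show h x = v (p.g a₀ x)
    rw [hx3, ← hAK j x hx1' (by rw [hx2]; exact hz3), hx2]
  have hX' : ∀ a ∈ p.C, ∀ B ∈ p.F ⊓ 𝓟 X, ∀ᶠ y in (U a : Filter ℕ),
      {x | x ∈ B ∧ p.g a x = y}.Infinite := by
    intro a ha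
    rcases le_total a₀ a with haa | haa
    · exact hup a ha haa
    · exact down hc p inf_le_left ha ha₀ haa (hup a₀ ha₀ le_rfl)
  exact ⟨addSet p X hX', le_addSet p X hX', a₀, ha₀, v, X, mem_addSet p X hX', fun x hx => hx⟩

end FunJob

/-- JOB FUN. -/
theorem target_Fun : Target_Fun.{u} := by
  intro ι _ U f hc p h
  by_cases h1 : ∀ a ∈ p.C, ∀ B ∈ p.F, ∀ᶠ y in (U a : Filter ℕ),
      (h '' {x | x ∈ B ∧ p.g a x = y}).Infinite
  · obtain ⟨q, hq, hX⟩ := FunJob.case1 p h h1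
    exact ⟨q, hq, Or.inl hX⟩
  · push Not at h1
    obtain ⟨a, ha, B, hB, h2⟩ := h1
    obtain ⟨q, hq, hX⟩ := FunJob.case2 hc p h a ha B hB h2
    exact ⟨q, hq, Or.inr hX⟩

end Pool.Agent.RKT
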