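import Pool.Agent.RKT.Defs

/-!
# A generic construction of length `ω₁`

In a countably closed preorder in which every element splits, there are `2^{ℵ₁}` directed sets
which meet `ℵ₁` prescribed dense sets and are pairwise incompatible.
-/

open Set Filter Cardinal

namespace Pool.Agent.RKT.Gen

universe u v

variable {P : Type u} [Preorder P]

/-- A monotone family indexed by a countable linear order has an upper bound. -/
lemma exists_ub (hc : ∀ p : ℕ → P, Monotone p → ∃ q, ∀ n, p n ≤ q) (p₀ : P)
    {A : Type} [LinearOrder A] [Countable A] (F : A → P) (hF : Monotone F)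
    (h0 : ∀ a, p₀ ≤ F a) : ∃ q, p₀ ≤ q ∧ ∀ a, F a ≤ q := by
  classical
  rcases isEmpty_or_nonempty A with hA | hA
  · exact ⟨p₀, le_rfl, fun a => isEmptyElim a⟩
  · haveI := Encodable.ofCountable A
    haveI : Inhabited A := ⟨Classical.arbitrary A⟩
    have hd : Directed (· ≤ ·) F := hF.directed_le
    obtain ⟨q, hq⟩ := hc (F ∘ hd.sequence F) hd.sequence_mono
    refine ⟨q, ?_, fun a => ?_⟩
    · exact (h0 _).trans (hq 0)
    · exact (hd.rel_sequence a).trans (hq _)

section

variable {T : Type} [LinearOrder T] [WellFoundedLT T]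

/-- The recursion. -/
noncomputable def build (step : ∀ i : T, (Iio i → P) → Bool → P) (η : T → Bool) : T → P :=
  WellFounded.fix (wellFounded_lt (α := T)) (fun i ih => step i (fun j => ih j.1 j.2) (η i))

lemma build_eq (step : ∀ i : T, (Iio i → P) → Bool → P) (η : T → Bool) (i : T) :
    build step η i = step i (fun j => build step η j.1) (η i) := by
  unfold build
  rw [WellFounded.fix_eq]

lemma build_congr (step : ∀ i : T, (Iio i → P) → Bool → P) (η η' : T → Bool) (i : T)
    (h : ∀ j < i, η j = η' j) : ∀ j < i, build step η j = build step η' j := by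
  intro j
  induction j using WellFoundedLT.induction with
  | ind j ih =>
    intro hj
    rw [build_eq, build_eq, h j hj]
    congr 1
    funext k
    exact ih k.1 k.2 (lt_trans k.2 hj)

theorem main (hcT : ∀ i : T, Countable (Iio i)) [Nonempty T] (p₀ : P) (Inc : P → P → Prop)
    {J : Type v} (D : J → Set P)
    (hc : ∀ p : ℕ → P, Monotone p → ∃ q, ∀ n, p n ≤ q)
    (hs : ∀ p, ∃ q₀ q₁, p ≤ q₀ ∧ p ≤ q₁ ∧ Inc q₀ q₁)
    (hp : ∀ q₀ q₁ r₀ r₁, Inc q₀ q₁ → q₀ ≤ r₀ → q₁ ≤ r₁ → Inc r₀ r₁)
    (t : T → Option J) (ht : Function.Surjective t)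
    (hD : ∀ j p, ∃ q ∈ D j, p ≤ q) :
    ∃ G : (T → Bool) → Set P,
      (∀ η, (G η).Nonempty ∧ DirectedOn (· ≤ ·) (G η) ∧ (∀ p ∈ G η, p₀ ≤ p) ∧
        ∀ j, ∃ q ∈ G η, q ∈ D j) ∧
      ∀ η η', η ≠ η' → ∃ q₀ ∈ G η, ∃ q₁ ∈ G η', Inc q₀ q₁ ∨ Inc q₁ q₀ := by
  classical
  -- the one step extension
  have hub : ∀ (i : T) (F : Iio i → P), ∃ q : P, (Monotone F ∧ ∀ a, p₀ ≤ F a) →
      (p₀ ≤ q ∧ ∀ a, F a ≤ q) := by
    intro i F
    by_cases h : Monotone F ∧ ∀ a, p₀ ≤ F a
    · have := hcT i
      obtain ⟨q, hq⟩ := exists_ub hc p₀ F h.1 h.2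
      exact ⟨q, fun _ => hq⟩
    · exact ⟨p₀, fun h' => absurd h' h⟩
  choose ub hub using hub
  choose s₀ s₁ hs₀ hs₁ hs₂ using hs
  have hD' : ∀ (o : Option J) (p : P), ∃ q, p ≤ q ∧ ∀ j, o = some j → q ∈ D j := by
    intro o p
    cases o with
    | none => exact ⟨p, le_rfl, fun j hj => by cases hj⟩
    | some j =>
      obtain ⟨q, hq, hpq⟩ := hD j p
      exact ⟨q, hpq, fun j' hj' => by cases hj'; exact hq⟩
  choose d hd hd' using hD'
  let step : ∀ i : T, (Iio i → P) → Bool → P := fun i F b =>
    d (t i) (bif b then s₁ (ub i F) else s₀ (ub i F))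
  have hstep : ∀ i F b, ub i F ≤ step i F b := by
    intro i F b
    cases b with
    | true => exact (hs₁ _).trans (hd (t i) _)
    | false => exact (hs₀ _).trans (hd (t i) _)
  have key : ∀ η : T → Bool, ∀ i, p₀ ≤ build step η i ∧ ∀ j < i, build step η j ≤ build step η i := by
    intro η i
    induction i using WellFoundedLT.induction with
    | ind i ih =>
      have hmono : Monotone (fun j : Iio i => build step η j.1) := by
        intro a b hab
        rcases hab.eq_or_lt with h | h
        · rw [h]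
        · exact (ih b.1 b.2).2 a.1 h
      have h0 : ∀ a : Iio i, p₀ ≤ build step η a.1 := fun a => (ih a.1 a.2).1
      obtain ⟨h1, h2⟩ := hub i (fun j : Iio i => build step η j.1) ⟨hmono, h0⟩
      have h3 := hstep i (fun j : Iio i => build step η j.1) (η i)
      rw [build_eq]
      exact ⟨h1.trans h3, fun j hj => (h2 ⟨j, hj⟩).trans h3⟩
  have hmono : ∀ η, Monotone (build step η) := by
    intro η a b hab
    rcases hab.eq_or_lt with h | h
    · rw [h]
    · exact (key η b).2 a h
  refine ⟨fun η => range (build step η), fun η => ⟨range_nonempty _, ?_, ?_, ?_⟩, ?_⟩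
  · exact directedOn_range.2 (hmono η).directed_le
  · rintro p ⟨i, rfl⟩
    exact (key η i).1
  · intro j
    obtain ⟨i, hi⟩ := ht (some j)
    refine ⟨_, ⟨i, rfl⟩, ?_⟩
    rw [build_eq]
    exact hd' (t i) _ j hi
  · intro η η' hne
    obtain ⟨i, hi, hmin⟩ : ∃ i, η i ≠ η' i ∧ ∀ j < i, η j = η' j := by
      have hex : {i | η i ≠ η' i}.Nonempty := by
        by_contra hcon
        apply hne
        funext i
        by_contra hi
        exact hcon ⟨i, hi⟩
      refine ⟨(wellFounded_lt (α := T)).min _ hex, (wellFounded_lt (α := T)).min_mem _ hex, ?_⟩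
      intro j hj
      by_contra hcon
      exact (wellFounded_lt (α := T)).not_lt_min _ (show j ∈ {i | η i ≠ η' i} from hcon) hj
    have hF : (fun j : Iio i => build step η j.1) = fun j : Iio i => build step η' j.1 := by
      funext j
      exact build_congr step η η' i hmin j.1 j.2
    refine ⟨_, ⟨i, rfl⟩, _, ⟨i, rfl⟩, ?_⟩
    rw [build_eq, build_eq step η', ← hF]
    cases h1 : η i with
    | true =>
      have h2 : η' i = false := by
        cases h3 : η' i with
        | true => exact absurd (h1.trans h3.symm) hi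
        | false => rfl
      rw [h2]
      right
      exact hp _ _ _ _ (hs₂ _) (hd (t i) _) (hd (t i) _)
    | false =>
      have h2 : η' i = true := by
        cases h3 : η' i with
        | true => rfl
        | false => exact absurd (h1.trans h3.symm) hi
      rw [h2]
      left
      exact hp _ _ _ _ (hs₂ _) (hd (t i) _) (hd (t i) _)

end

end Pool.Agent.RKT.Gen

namespace Pool.Agent.RKT

universe u v

theorem target_Gen : Target_Gen.{u, v} := by
  classical
  intro P _ p₀ Inc I J D hc hs hp hI hJ hD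
  let T : Type := (Cardinal.aleph.{0} 1).ord.ToType
  have hT : Cardinal.mk T = Cardinal.aleph.{0} 1 := Cardinal.mk_ord_toType _
  obtain ⟨e⟩ : Nonempty (I ≃ T) := Cardinal.eq.1 (hI.trans hT.symm)
  have hcT : ∀ i : T, Countable (Iio i) := by
    intro i
    have h1 : Cardinal.mk (Iio i) < Cardinal.aleph.{0} 1 := Cardinal.mk_Iio_ord_toType i
    rw [← Cardinal.mk_le_aleph0_iff]
    have h2 : Cardinal.aleph.{0} 1 = Order.succ Cardinal.aleph0 := Cardinal.succ_aleph0.symm
    have h3 : Cardinal.mk (Iio i) < Order.succ Cardinal.aleph0 := lt_of_lt_of_eq h1 h2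
    exact Order.lt_succ_iff.1 h3
  have : Nonempty T := by
    rw [← Cardinal.mk_ne_zero_iff, hT]
    exact (Cardinal.aleph_pos 1).ne'
  obtain ⟨t, ht⟩ : ∃ t : T → Option J, Function.Surjective t := by
    have h1 : Cardinal.mk (Option J) ≤ Cardinal.aleph.{v} 1 := by
      rw [Cardinal.mk_option]
      exact Cardinal.add_le_of_le (Cardinal.aleph0_le_aleph 1) hJ
        ((Cardinal.one_lt_aleph0).le.trans (Cardinal.aleph0_le_aleph 1))
    have h2 : Cardinal.lift.{0} (Cardinal.mk (Option J)) ≤ Cardinal.lift.{v} (Cardinal.mk T) := by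
      rw [hT]
      simpa using h1
    obtain ⟨f⟩ := Cardinal.lift_mk_le'.1 h2
    exact ⟨Function.invFun f, Function.invFun_surjective f.injective⟩
  obtain ⟨G, hG, hG'⟩ := Gen.main (T := T) hcT p₀ Inc D hc hs hp t ht hD
  refine ⟨fun η => G (η ∘ e.symm), fun η => hG _, fun η η' hne => hG' _ _ ?_⟩
  intro h
  apply hne
  funext i
  have := congrFun h (e i)
  simpa using this

end Pool.Agent.RKT
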