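import Pool.Agent.RKT.Defs

/-!
# Adding a set to a state, splitting of states, upper bounds of sequences (job SET)
-/

open Set Filter

namespace Pool.Agent.RKT

universe u

namespace SetsAux

variable {ι : Type u} [LinearOrder ι] {U : ι → Ultrafilter ℕ} {f : ι → ι → ℕ → ℕ}

/-- Largeness of `X` for the index `b` implies largeness for all smaller indices. -/
lemma down (hc : Chain U f) (p : State U f) (X : Set ℕ) {a b : ι} (ha : a ∈ p.C) (hb : b ∈ p.C)
    (hab : a ≤ b)
    (h : ∀ B ∈ p.F, ∀ᶠ y in (U b : Filter ℕ), {x | (x ∈ B ∧ x ∈ X) ∧ p.g b x = y}.Infinite) :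
    ∀ B ∈ p.F, ∀ᶠ y in (U a : Filter ℕ), {x | (x ∈ B ∧ x ∈ X) ∧ p.g a x = y}.Infinite := by
  intro B hB
  obtain ⟨A, hA, B', hB', hcoh⟩ := p.coh a ha b hb hab
  have h1 := h (B ∩ B') (inter_mem hB hB')
  have h2 : ∀ᶠ y in (U b : Filter ℕ),
      {x | (x ∈ B ∧ x ∈ X) ∧ p.g a x = f a b y}.Infinite := by
    filter_upwards [h1, hA] with y hy hyA
    refine hy.mono ?_
    rintro x ⟨⟨⟨hxB, hxB'⟩, hxX⟩, hxy⟩
    refine ⟨⟨hxB, hxX⟩, ?_⟩
    have := hcoh x hxB' (by rw [hxy]; exact hyA)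
    rw [← this, hxy]
  have h3 : ((U b).map (f a b) : Filter ℕ) = (U a : Filter ℕ) := by
    rw [hc.map_eq hab]
  rw [← h3]
  exact h2

/-- Restrict a state to a set. -/
def restrict (p : State U f) (X : Set ℕ)
    (h : ∀ a ∈ p.C, ∀ B ∈ p.F,
      ∀ᶠ y in (U a : Filter ℕ), {x | (x ∈ B ∧ x ∈ X) ∧ p.g a x = y}.Infinite) : State U f where
  C := p.C
  g := p.g
  F := p.F ⊓ 𝓟 X
  countable := p.countable
  nonempty := p.nonempty
  cg := by
    have := p.cg
    infer_instance
  coh := by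
    intro a ha b hb hab
    obtain ⟨A, hA, B, hB, h⟩ := p.coh a ha b hb hab
    exact ⟨A, hA, B, mem_inf_of_left hB, h⟩
  large := by
    intro a ha B hB
    rw [mem_inf_principal] at hB
    filter_upwards [h a ha _ hB] with y hy
    refine hy.mono ?_
    rintro x ⟨⟨hx, hxX⟩, hxy⟩
    exact ⟨hx hxX, hxy⟩

lemma le_restrict (p : State U f) (X : Set ℕ)
    (h : ∀ a ∈ p.C, ∀ B ∈ p.F,
      ∀ᶠ y in (U a : Filter ℕ), {x | (x ∈ B ∧ x ∈ X) ∧ p.g a x = y}.Infinite) :
    p ≤ restrict p X h :=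
  ⟨Subset.rfl, fun _ _ => rfl, inf_le_left⟩

lemma mem_restrict (p : State U f) (X : Set ℕ)
    (h : ∀ a ∈ p.C, ∀ B ∈ p.F,
      ∀ᶠ y in (U a : Filter ℕ), {x | (x ∈ B ∧ x ∈ X) ∧ p.g a x = y}.Infinite) :
    X ∈ (restrict p X h).F :=
  mem_inf_of_right (mem_principal_self X)

lemma part_a (hc : Chain U f) (p : State U f) (a : ι) (ha : a ∈ p.C) (A : Set ℕ) (hA : A ∈ U a) :
    ∃ q : State U f, p ≤ q ∧ q.g a ⁻¹' A ∈ q.F := by
  have key : ∀ b ∈ p.C, ∀ B ∈ p.F, ∀ᶠ y in (U b : Filter ℕ),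
      {x | (x ∈ B ∧ x ∈ p.g a ⁻¹' A) ∧ p.g b x = y}.Infinite := by
    intro b hb
    rcases le_total a b with hab | hba
    · intro B hB
      obtain ⟨A', hA', B', hB', hcoh⟩ := p.coh a ha b hb hab
      have h1 := p.large b hb (B ∩ B') (inter_mem hB hB')
      have h2 : ∀ᶠ y in (U b : Filter ℕ), f a b y ∈ A := by
        have : A ∈ (U b).map (f a b) := by rw [hc.map_eq hab]; exact hA
        exact this
      filter_upwards [h1, h2, hA'] with y hy hy2 hyA'
      refine hy.mono ?_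
      rintro x ⟨⟨hxB, hxB'⟩, hxy⟩
      refine ⟨⟨hxB, ?_⟩, hxy⟩
      have := hcoh x hxB' (by rw [hxy]; exact hyA')
      rw [mem_preimage, ← this, hxy]
      exact hy2
    · refine down hc p _ hb ha hba ?_
      intro B hB
      filter_upwards [p.large a ha B hB, hA] with y hy hyA
      refine hy.mono ?_
      rintro x ⟨hxB, hxy⟩
      exact ⟨⟨hxB, by rw [mem_preimage, hxy]; exact hyA⟩, hxy⟩
  exact ⟨restrict p _ key, le_restrict p _ key, mem_restrict p _ key⟩

/-- A strictly increasing selector of a sequence of infinite sets. -/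
lemma exists_selector (T : ℕ → Set ℕ) (hT : ∀ n, (T n).Infinite) :
    ∃ c : ℕ → ℕ, StrictMono c ∧ ∀ n, c n ∈ T n := by
  choose g hg1 hg2 using fun n m => (hT n).exists_gt m
  let c : ℕ → ℕ := fun n => Nat.rec (g 0 0) (fun n x => g (n + 1) x) n
  refine ⟨c, strictMono_nat_of_lt_succ fun n => hg2 (n + 1) (c n), ?_⟩
  intro n
  cases n with
  | zero => exact hg1 0 0
  | succ n => exact hg1 (n + 1) (c n)

/-- Countably many infinite sets can be split. -/
lemma exists_split (S : ℕ → Set ℕ) :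
    ∃ X₀ X₁ : Set ℕ, Disjoint X₀ X₁ ∧ ∀ n, (S n).Infinite → (S n ∩ X₀).Infinite ∧
      (S n ∩ X₁).Infinite := by
  classical
  let T : ℕ → Set ℕ := fun k => if (S k.unpair.1).Infinite then S k.unpair.1 else univ
  have hT : ∀ k, (T k).Infinite := by
    intro k
    by_cases h : (S k.unpair.1).Infinite
    · simp only [T, if_pos h]; exact h
    · simp only [T, if_neg h]; exact infinite_univ
  obtain ⟨c, hc, hcT⟩ := exists_selector T hT
  refine ⟨{x | ∃ k, Even k.unpair.2 ∧ c k = x}, {x | ∃ k, ¬ Even k.unpair.2 ∧ c k = x}, ?_, ?_⟩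
  · rw [Set.disjoint_left]
    rintro x ⟨k, hk, rfl⟩ ⟨l, hl, hkl⟩
    have := hc.injective hkl
    subst this
    exact hl hk
  · intro n hn
    have aux : ∀ φ : ℕ → ℕ, Function.Injective φ →
        Function.Injective (fun j => c (Nat.pair n (φ j))) := by
      intro φ hφ i j hij
      have h1 := hc.injective hij
      have h2 := congrArg (fun k => (Nat.unpair k).2) h1
      simp only [Nat.unpair_pair] at h2
      exact hφ h2
    have mem : ∀ m, c (Nat.pair n m) ∈ S n := by
      intro m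
      have h := hcT (Nat.pair n m)
      simp only [T, Nat.unpair_pair, if_pos hn] at h
      exact h
    constructor
    · refine (infinite_range_of_injective (aux (fun j => 2 * j) ?_)).mono ?_
      · intro i j hij
        simpa using hij
      · rintro _ ⟨j, rfl⟩
        refine ⟨mem _, _, ?_, rfl⟩
        simp
    · refine (infinite_range_of_injective (aux (fun j => 2 * j + 1) ?_)).mono ?_
      · intro i j hij
        simpa using hij
      · rintro _ ⟨j, rfl⟩
        refine ⟨mem _, _, ?_, rfl⟩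
        simp

lemma part_b (p : State U f) :
    ∃ q₀ q₁ : State U f, p ≤ q₀ ∧ p ≤ q₁ ∧ ∃ X₀ ∈ q₀.F, ∃ X₁ ∈ q₁.F, Disjoint X₀ X₁ := by
  obtain ⟨a, ha⟩ := p.countable.exists_eq_range p.nonempty
  have := p.cg
  obtain ⟨B, hB⟩ := p.F.exists_antitone_basis
  let S : ℕ → Set ℕ := fun k =>
    {x | x ∈ B k.unpair.1 ∧ p.g (a k.unpair.2.unpair.1) x = k.unpair.2.unpair.2}
  obtain ⟨X₀, X₁, hd, hX⟩ := exists_split S
  have key : ∀ (m n y : ℕ), {x | x ∈ B m ∧ p.g (a n) x = y}.Infinite →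
      ({x | x ∈ B m ∧ p.g (a n) x = y} ∩ X₀).Infinite ∧
      ({x | x ∈ B m ∧ p.g (a n) x = y} ∩ X₁).Infinite := by
    intro m n y h
    have := hX (Nat.pair m (Nat.pair n y))
    simp only [S, Nat.unpair_pair] at this
    exact this h
  have h0 : ∀ b ∈ p.C, ∀ B' ∈ p.F, ∀ᶠ y in (U b : Filter ℕ),
      {x | (x ∈ B' ∧ x ∈ X₀) ∧ p.g b x = y}.Infinite := by
    intro b hb B' hB'
    rw [ha] at hb
    obtain ⟨n, rfl⟩ := hb
    obtain ⟨m, -, hm⟩ := hB.1.mem_iff.1 hB'
    filter_upwards [p.large (a n) (by rw [ha]; exact mem_range_self n) (B m) (hB.1.mem_of_mem trivial)]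
      with y hy
    refine (key m n y hy).1.mono ?_
    rintro x ⟨⟨hx1, hx2⟩, hx3⟩
    exact ⟨⟨hm hx1, hx3⟩, hx2⟩
  have h1 : ∀ b ∈ p.C, ∀ B' ∈ p.F, ∀ᶠ y in (U b : Filter ℕ),
      {x | (x ∈ B' ∧ x ∈ X₁) ∧ p.g b x = y}.Infinite := by
    intro b hb B' hB'
    rw [ha] at hb
    obtain ⟨n, rfl⟩ := hb
    obtain ⟨m, -, hm⟩ := hB.1.mem_iff.1 hB'
    filter_upwards [p.large (a n) (by rw [ha]; exact mem_range_self n) (B m) (hB.1.mem_of_mem trivial)]
      with y hy
    refine (key m n y hy).2.mono ?_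
    rintro x ⟨⟨hx1, hx2⟩, hx3⟩
    exact ⟨⟨hm hx1, hx3⟩, hx2⟩
  exact ⟨restrict p X₀ h0, restrict p X₁ h1, le_restrict _ _ _, le_restrict _ _ _, X₀,
    mem_restrict _ _ _, X₁, mem_restrict _ _ _, hd⟩

/-- The projections of the upper bound of a sequence. -/
noncomputable def limG (p : ℕ → State U f) (a : ι) : ℕ → ℕ := by
  classical
  exact if h : ∃ n, a ∈ (p n).C then (p (Nat.find h)).g a else fun _ => 0

lemma limG_eq (p : ℕ → State U f) (hp : Monotone p) {a : ι} {n : ℕ} (ha : a ∈ (p n).C) :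
    limG p a = (p n).g a := by
  classical
  have h : ∃ n, a ∈ (p n).C := ⟨n, ha⟩
  have h1 : limG p a = (p (Nat.find h)).g a := by
    unfold limG
    rw [dif_pos h]
  rw [h1]
  exact ((hp (Nat.find_min' h ha)).2.1 a (Nat.find_spec h)).symm

lemma part_c (p : ℕ → State U f) (hp : Monotone p) : ∃ q, ∀ n, p n ≤ q := by
  have hF : Directed (· ≥ ·) fun n => (p n).F := by
    have : Antitone fun n => (p n).F := fun i j hij => (hp hij).2.2
    exact this.directed_ge
  have hmem : ∀ B : Set ℕ, B ∈ (⨅ n, (p n).F) ↔ ∃ n, B ∈ (p n).F := fun B =>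
    mem_iInf_of_directed hF B
  refine ⟨{ C := ⋃ n, (p n).C
            g := limG p
            F := ⨅ n, (p n).F
            countable := countable_iUnion fun n => (p n).countable
            nonempty := ?_
            cg := ?_
            coh := ?_
            large := ?_ }, ?_⟩
  · obtain ⟨a, ha⟩ := (p 0).nonempty
    exact ⟨a, mem_iUnion.2 ⟨0, ha⟩⟩
  · haveI := fun n => (p n).cg
    infer_instance
  · intro a ha b hb hab
    obtain ⟨n, hn⟩ := mem_iUnion.1 ha
    obtain ⟨m, hm⟩ := mem_iUnion.1 hb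
    have hn' : a ∈ (p (max n m)).C := (hp (le_max_left n m)).1 hn
    have hm' : b ∈ (p (max n m)).C := (hp (le_max_right n m)).1 hm
    obtain ⟨A, hA, B, hB, h⟩ := (p (max n m)).coh a hn' b hm' hab
    refine ⟨A, hA, B, (hmem B).2 ⟨_, hB⟩, ?_⟩
    rw [limG_eq p hp hn', limG_eq p hp hm']
    exact h
  · intro a ha B hB
    obtain ⟨n, hn⟩ := mem_iUnion.1 ha
    obtain ⟨m, hm⟩ := (hmem B).1 hB
    have hn' : a ∈ (p (max n m)).C := (hp (le_max_left n m)).1 hn
    have hm' : B ∈ (p (max n m)).F := (hp (le_max_right n m)).2.2 hm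
    rw [limG_eq p hp hn']
    exact (p (max n m)).large a hn' B hm'
  · intro n
    refine ⟨subset_iUnion (fun n => (p n).C) n, ?_, iInf_le _ n⟩
    intro a ha
    exact limG_eq p hp ha

lemma part_d (hc : Chain U f) (a : ι) : Nonempty (State U f) := by
  have h0 : ∀ᶠ y in (U a : Filter ℕ), f a a y = y := by
    have h1 := hc.comp (le_refl a) (le_refl a)
    have h2 : ((U a).map (f a a) : Filter ℕ) = (U a : Filter ℕ) := by
      rw [hc.map_eq (le_refl a)]
    rw [← h2]
    exact h1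
  refine ⟨{ C := {a}
            g := fun _ x => x.unpair.1
            F := ⊤
            countable := countable_singleton a
            nonempty := singleton_nonempty a
            cg := inferInstance
            coh := ?_
            large := ?_ }⟩
  · rintro b hb c hc' -
    rw [mem_singleton_iff] at hb hc'
    rw [hb, hc']
    exact ⟨{y | f a a y = y}, h0, univ, univ_mem, fun x _ hx => hx⟩
  · intro b _ B hB
    rw [mem_top] at hB
    subst hB
    refine Eventually.of_forall fun y => ?_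
    refine (infinite_range_of_injective (f := fun j : ℕ => Nat.pair y j) ?_).mono ?_
    · intro i j hij
      have := congrArg (fun k => (Nat.unpair k).2) hij
      simpa using this
    · rintro _ ⟨j, rfl⟩
      refine ⟨mem_univ _, ?_⟩
      simp

end SetsAux

/-- Job SET. -/
theorem target_Set : Target_Set.{u} := by
  intro ι _ U f hc
  refine ⟨?_, ?_, ?_, ?_⟩
  · intro p a ha A hA
    exact SetsAux.part_a hc p a ha A hA
  · exact fun p => SetsAux.part_b p
  · exact fun p hp => SetsAux.part_c p hp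
  · rintro ⟨a⟩
    exact SetsAux.part_d hc a

end Pool.Agent.RKT
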