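import Pool.Agent.RKT.Defs

/-!
# The final recursion over the nodes of the tree
-/

open Set Filter Cardinal

namespace Pool.Agent.RKT

universe u v

namespace Tree

/-! ### Generalities -/

lemma isExt_congr {ι : Type u} {κ : Type v} {f : ι → Ultrafilter ℕ} {g : κ → Ultrafilter ℕ}
    {W : Ultrafilter ℕ} (h : Set.range f = Set.range g) (hf : IsExt f W) : IsExt g W := by
  have h1 : ∀ b, ∃ a, f a = g b := fun b => by
    have : g b ∈ Set.range f := by rw [h]; exact ⟨b, rfl⟩
    exact this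
  have h2 : ∀ a, ∃ b, g b = f a := fun a => by
    have : f a ∈ Set.range g := by rw [← h]; exact ⟨a, rfl⟩
    exact this
  refine ⟨fun b => ?_, hf.rigid, fun k => ?_, fun b => ?_, fun b => ?_⟩
  · obtain ⟨a, ha⟩ := h1 b
    rw [← ha]; exact hf.le a
  · rcases hf.min k with h3 | ⟨a, ha⟩
    · exact Or.inl h3
    · obtain ⟨b, hb⟩ := h2 a
      exact Or.inr ⟨b, by rw [hb]; exact ha⟩
  · obtain ⟨a, ha⟩ := h1 b
    rw [← ha]; exact hf.tight a
  · obtain ⟨a, ha⟩ := h1 b
    rw [← ha]; exact hf.big a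

/-- Equivalence of ultrafilters. -/
def Eqv (V W : Ultrafilter ℕ) : Prop := RKle V W ∧ RKle W V

lemma Eqv.symm {V W : Ultrafilter ℕ} (h : Eqv V W) : Eqv W V := ⟨h.2, h.1⟩

lemma Eqv.trans {V W X : Ultrafilter ℕ} (h : Eqv V W) (h' : Eqv W X) : Eqv V X :=
  ⟨h.1.trans h'.1, h'.2.trans h.2⟩

lemma Eqv.refl (V : Ultrafilter ℕ) : Eqv V V := ⟨RKle.refl V, RKle.refl V⟩

/-- A map which is the identity modulo `W` fixes `W`. -/
lemma map_eq_self {W : Ultrafilter ℕ} {e : ℕ → ℕ} (h : ∀ᶠ x in (W : Filter ℕ), e x = x) :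
    W.map e = W := by
  ext s
  rw [Ultrafilter.mem_map]
  constructor
  · intro hs
    filter_upwards [hs, h] with x hx hx'
    rw [Set.mem_preimage, hx'] at hx
    exact hx
  · intro hs
    filter_upwards [hs, h] with x hx hx'
    rw [Set.mem_preimage, hx']
    exact hx

lemma le_map_of_injOn {W : Ultrafilter ℕ} {h : ℕ → ℕ} {X : Set ℕ} (hX : X ∈ W)
    (hi : InjOn h X) : RKle W (W.map h) := by
  refine ⟨Function.invFunOn h X, ?_⟩
  rw [Ultrafilter.map_map]
  symm
  apply map_eq_self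
  filter_upwards [hX] with x hx
  exact hi.leftInvOn_invFunOn hx

/-! ### The recursion -/

section

variable {K : Type} (W : ∀ a : Ordinal.{0}, (Set.Iio a → Ultrafilter ℕ) → K → Ultrafilter ℕ)
  (k₀ : K)

open Classical in
/-- The last value of a function of length `a`. -/
noncomputable def last (x : Ordinal.{0} → K) (a : Ordinal.{0}) : K :=
  if h : ∃ c, a = Order.succ c then x (Classical.choose h) else k₀

lemma last_succ (x : Ordinal.{0} → K) (c : Ordinal.{0}) : last k₀ x (Order.succ c) = x c := by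
  have h : ∃ d, Order.succ c = Order.succ d := ⟨c, rfl⟩
  rw [last, dif_pos h]
  have h1 := Classical.choose_spec h
  have h2 : c = Classical.choose h := Order.succ_injective h1
  rw [← h2]

lemma last_congr (x y : Ordinal.{0} → K) (a : Ordinal.{0}) (h : ∀ c < a, x c = y c) :
    last k₀ x a = last k₀ y a := by
  unfold last
  split_ifs with h1
  · apply h
    have := Classical.choose_spec h1
    conv_rhs => rw [this]
    exact Order.lt_succ _
  · rfl

/-- The ultrafilter attached to `x` restricted to `a`. -/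
noncomputable def U (x : Ordinal.{0} → K) : Ordinal.{0} → Ultrafilter ℕ :=
  WellFoundedLT.fix (fun a IH => W a (fun b => IH b.1 b.2) (last k₀ x a))

lemma U_eq (x : Ordinal.{0} → K) (a : Ordinal.{0}) :
    U W k₀ x a = W a (fun b => U W k₀ x b.1) (last k₀ x a) := by
  rw [U, WellFoundedLT.fix_eq]

lemma U_congr (x y : Ordinal.{0} → K) : ∀ a : Ordinal.{0}, (∀ c < a, x c = y c) →
    U W k₀ x a = U W k₀ y a := by
  intro a
  induction a using WellFoundedLT.induction with
  | ind a ih =>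
    intro h
    rw [U_eq, U_eq, last_congr k₀ x y a h]
    congr 1
    funext b
    exact ih b.1 b.2 (fun c hc => h c (hc.trans b.2))

end

/-- What is known about the step function. -/
structure Good {K : Type}
    (W : ∀ a : Ordinal.{0}, (Set.Iio a → Ultrafilter ℕ) → K → Ultrafilter ℕ)
    (δ : Ordinal.{0}) : Prop where
  zero : ∀ u k, W 0 u k = pure 0
  ext : ∀ a, a ≠ 0 → a < δ → ∀ u : Set.Iio a → Ultrafilter ℕ, GoodChain u →
    ∀ k, IsExt u (W a u k)
  inj : ∀ a, a ≠ 0 → a < δ → ∀ u : Set.Iio a → Ultrafilter ℕ, GoodChain u →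
    ∀ k k', Eqv (W a u k) (W a u k') → k = k'

lemma isExt_pure {ι : Type u} [IsEmpty ι] (u : ι → Ultrafilter ℕ) : IsExt u (pure 0) := by
  refine ⟨fun a => isEmptyElim a, ?_, fun h => Or.inl ⟨{0}, ?_, ?_⟩, fun a => isEmptyElim a,
    fun a => isEmptyElim a⟩
  · intro h h' he
    rw [Ultrafilter.map_pure, Ultrafilter.map_pure] at he
    have h2 : h 0 = h' 0 := Ultrafilter.pure_injective he
    have h3 : {x | h x = h' x} ∈ (pure 0 : Ultrafilter ℕ) := by
      rw [Ultrafilter.mem_pure]; exact h2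
    exact h3
  · rw [Ultrafilter.mem_pure]; exact rfl
  · exact Set.injOn_singleton _ _

section

variable {K : Type} {W : ∀ a : Ordinal.{0}, (Set.Iio a → Ultrafilter ℕ) → K → Ultrafilter ℕ}
  {δ : Ordinal.{0}} (hW : Good W δ) (k₀ : K)

omit hW in
lemma goodChain_of (x : Ordinal.{0} → K) (a : Ordinal.{0})
    (h : ∀ b < a, IsExt (fun c : Set.Iio b => U W k₀ x c.1) (U W k₀ x b)) :
    GoodChain (fun b : Set.Iio a => U W k₀ x b.1) := by
  intro b
  refine isExt_congr ?_ (h b.1 b.2)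
  ext V
  constructor
  · rintro ⟨c, rfl⟩
    have h1 : c.1 < b.1 := c.2
    have h2 : b.1 < a := b.2
    exact ⟨⟨⟨c.1, h1.trans h2⟩, h1⟩, rfl⟩
  · rintro ⟨c, rfl⟩
    exact ⟨⟨c.1.1, c.2⟩, rfl⟩

include hW

lemma isExt (x : Ordinal.{0} → K) : ∀ a < δ,
    IsExt (fun c : Set.Iio a => U W k₀ x c.1) (U W k₀ x a) := by
  intro a
  induction a using WellFoundedLT.induction with
  | ind a ih =>
    intro ha
    by_cases h0 : a = 0
    · subst h0
      have : IsEmpty (Set.Iio (0 : Ordinal.{0})) := ⟨fun c => not_lt_bot (a := c.1) (by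
        have := c.2
        exact this)⟩
      rw [U_eq, hW.zero]
      exact isExt_pure _
    · rw [U_eq W k₀ x a]
      exact hW.ext a h0 ha _ (goodChain_of k₀ x a (fun b hb => ih b hb (hb.trans ha))) _

lemma goodChain (x : Ordinal.{0} → K) (a : Ordinal.{0}) (ha : a < δ) :
    GoodChain (fun b : Set.Iio a => U W k₀ x b.1) :=
  goodChain_of k₀ x a (fun b hb => isExt hW k₀ x b (hb.trans ha))

lemma le_of_le (x : Ordinal.{0} → K) {b a : Ordinal.{0}} (hba : b ≤ a) (ha : a < δ) :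
    RKle (U W k₀ x b) (U W k₀ x a) := by
  rcases hba.lt_or_eq with h | h
  · exact (isExt hW k₀ x a ha).le ⟨b, h⟩
  · rw [h]; exact RKle.refl _

lemma exists_eqv (x : Ordinal.{0} → K) : ∀ a < δ, ∀ V, RKle V (U W k₀ x a) →
    ∃ b ≤ a, Eqv V (U W k₀ x b) := by
  intro a
  induction a using WellFoundedLT.induction with
  | ind a ih =>
    rintro ha V ⟨h, hV⟩
    rcases (isExt hW k₀ x a ha).min h with ⟨X, hX, hi⟩ | ⟨b, hb⟩
    · refine ⟨a, le_rfl, ⟨h, hV⟩, ?_⟩
      rw [hV]
      exact le_map_of_injOn hX hi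
    · rw [← hV] at hb
      obtain ⟨c, hc, hc'⟩ := ih b.1 b.2 (lt_trans b.2 ha) V hb
      exact ⟨c, hc.trans (le_of_lt b.2), hc'⟩

lemma not_le (hF : Target_Fix) (x : Ordinal.{0} → K) {b a : Ordinal.{0}} (hba : b < a)
    (ha : a < δ) : ¬ RKle (U W k₀ x a) (U W k₀ x b) := by
  rintro ⟨q, hq⟩
  obtain ⟨p, hp⟩ := (isExt hW k₀ x a ha).le ⟨b, hba⟩
  have h1 : (U W k₀ x a).map (q ∘ p) = U W k₀ x a := by
    rw [← Ultrafilter.map_map, ← hp]
    exact hq.symm
  have h2 := hF _ _ h1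
  refine (isExt hW k₀ x a ha).big ⟨b, hba⟩ p hp.symm _ h2 ?_
  intro y hy z hz hyz
  have hy' : q (p y) = y := hy
  have hz' : q (p z) = z := hz
  rw [← hy', ← hz', hyz]

lemma main (hF : Target_Fix) (x y : Ordinal.{0} → K) : ∀ a < δ, ∀ b < δ,
    Eqv (U W k₀ x a) (U W k₀ y b) → a = b ∧ ∀ c < a, x c = y c := by
  intro a
  induction a using WellFoundedLT.induction with
  | ind a ih =>
    intro ha b hb hab
    have key : ∀ c < a, c ≤ b ∧ Eqv (U W k₀ x c) (U W k₀ y c) ∧ ∀ d < c, x d = y d := by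
      intro c hc
      have h1 : RKle (U W k₀ x c) (U W k₀ y b) :=
        (le_of_le hW k₀ x hc.le ha).trans hab.1
      obtain ⟨d, hd, hcd⟩ := exists_eqv hW k₀ y b hb _ h1
      obtain ⟨h2, h3⟩ := ih c hc (hc.trans ha) d (lt_of_le_of_lt hd hb) hcd
      subst h2
      exact ⟨hd, hcd, h3⟩
    have hle : a ≤ b := by
      by_contra hlt
      push Not at hlt
      obtain ⟨_, h2, _⟩ := key b hlt
      exact not_le hW k₀ hF x hlt ha (hab.1.trans h2.2)
    have hge : b ≤ a := by
      by_contra hlt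
      push Not at hlt
      -- `a < b` : `U y a ≤ U y b ≤ U x a`
      have h1 : RKle (U W k₀ y a) (U W k₀ x a) :=
        (le_of_le hW k₀ y hlt.le hb).trans hab.2
      obtain ⟨c, hc, hcd⟩ := exists_eqv hW k₀ x a ha _ h1
      rcases hc.lt_or_eq with h2 | h2
      · have h3 := (ih c h2 (h2.trans ha) a ha hcd.symm).1
        exact absurd h3 h2.ne
      · subst h2
        exact not_le hW k₀ hF y hlt hb (hab.2.trans hcd.2)
    have hab' : a = b := le_antisymm hle hge
    subst hab'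
    refine ⟨rfl, ?_⟩
    by_cases hsucc : ∃ c, a = Order.succ c
    · obtain ⟨c, rfl⟩ := hsucc
      have hc : c < Order.succ c := Order.lt_succ c
      have h4 := (key c hc).2.2
      have h0 : Order.succ c ≠ 0 := fun h => absurd (h ▸ hc : c < 0) (not_lt_bot (a := c))
      have hchain : (fun b : Set.Iio (Order.succ c) => U W k₀ x b.1)
          = (fun b : Set.Iio (Order.succ c) => U W k₀ y b.1) := by
        funext b
        apply U_congr
        intro d hd
        exact h4 d (lt_of_lt_of_le hd (Order.lt_succ_iff.1 b.2))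
      have h5 : x c = y c := by
        have h6 := hab
        rw [U_eq W k₀ x, U_eq W k₀ y, last_succ, last_succ, ← hchain] at h6
        exact hW.inj _ h0 ha _ (goodChain hW k₀ x _ ha) _ _ h6
      intro d hd
      rcases (Order.lt_succ_iff.1 hd).lt_or_eq with h7 | h7
      · exact h4 d h7
      · rw [h7]; exact h5
    · intro c hc
      have hc' : Order.succ c < a := by
        rcases (Order.succ_le_of_lt hc).lt_or_eq with h8 | h8
        · exact h8
        · exact absurd ⟨c, h8.symm⟩ hsucc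
      exact (key _ hc').2.2 c (Order.lt_succ c)

end

/-! ### Total extension of a node -/

open Classical in
/-- Extend the function of a node to all ordinals. -/
noncomputable def tot {K : Type} {δ : Ordinal.{0}} (k₀ : K) (s : Node K δ) : Ordinal.{0} → K :=
  fun a => if h : a < s.len then s.val ⟨a, h⟩ else k₀

lemma tot_of_lt {K : Type} {δ : Ordinal.{0}} (k₀ : K) (s : Node K δ) {a : Ordinal.{0}}
    (h : a < s.len) : tot k₀ s a = s.val ⟨a, h⟩ := dif_pos h

lemma node_le_iff {K : Type} {δ : Ordinal.{0}} (k₀ : K) (s t : Node K δ) :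
    s ≤ t ↔ s.len ≤ t.len ∧ ∀ c < s.len, tot k₀ s c = tot k₀ t c := by
  constructor
  · rintro ⟨h, h'⟩
    refine ⟨h, fun c hc => ?_⟩
    rw [tot_of_lt k₀ s hc, tot_of_lt k₀ t (lt_of_lt_of_le hc h)]
    exact h' ⟨c, hc⟩
  · rintro ⟨h, h'⟩
    refine ⟨h, fun c => ?_⟩
    have := h' c.1 c.2
    rw [tot_of_lt k₀ s c.2, tot_of_lt k₀ t (lt_of_lt_of_le c.2 h)] at this
    exact this

lemma node_ext {K : Type} {δ : Ordinal.{0}} (s t : Node K δ) (h : s ≤ t) (h' : t ≤ s) :
    s = t := by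
  obtain ⟨h1, h2⟩ := h
  obtain ⟨h3, h4⟩ := h'
  cases s with
  | mk l hl v =>
    cases t with
    | mk m hm w =>
      have hlm : l = m := le_antisymm h1 h3
      subst hlm
      congr 1
      funext a
      exact h2 a

lemma mk_Iio_le {a : Ordinal.{0}} (ha : a < Ordinal.omega.{0} 2) :
    Cardinal.mk (Set.Iio a) ≤ Cardinal.aleph.{1} 1 := by
  rw [Cardinal.mk_Iio_ordinal]
  rw [← Cardinal.ord_aleph, Cardinal.lt_ord, ← one_add_one_eq_two, ← Cardinal.succ_aleph,
    Order.lt_succ_iff] at ha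
  have h : Cardinal.lift.{1} a.card ≤ Cardinal.lift.{1} (Cardinal.aleph.{0} 1) :=
    Cardinal.lift_le.2 ha
  rw [Cardinal.lift_aleph, Ordinal.lift_one] at h
  exact h

end Tree

open Pool.Agent.RKT.Tree in
theorem target_Tree : Target_Tree := by
  classical
  intro hF hE hCH K hK
  have hKne : Nonempty K := by
    rw [← Cardinal.mk_ne_zero_iff, hK]
    exact (Cardinal.beth_pos 2).ne'
  obtain ⟨k₀⟩ := hKne
  -- the step function
  have hstep : ∀ a : Ordinal.{0}, ∀ u : Set.Iio a → Ultrafilter ℕ, ∃ w : K → Ultrafilter ℕ,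
      (a = 0 → ∀ k, w k = pure 0) ∧ (a ≠ 0 → a < Ordinal.omega.{0} 2 → GoodChain u →
        (∀ k, IsExt u (w k)) ∧ ∀ k k', Eqv (w k) (w k') → k = k') := by
    intro a u
    by_cases h0 : a = 0
    · exact ⟨fun _ => pure 0, fun _ _ => rfl, fun h => absurd h0 h⟩
    · by_cases h1 : a < Ordinal.omega.{0} 2 ∧ GoodChain u
      · have : Nonempty (Set.Iio a) := ⟨⟨0, lt_of_le_of_ne (bot_le : (⊥ : Ordinal.{0}) ≤ a) (Ne.symm h0)⟩⟩
        obtain ⟨w, hw, hw'⟩ := hE hCH (Set.Iio a) (mk_Iio_le h1.1) u h1.2 K hK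
        refine ⟨w, fun h => absurd h h0, fun _ _ _ => ⟨hw, fun k k' hkk => ?_⟩⟩
        by_contra hne
        exact hw' k k' hne hkk
      · exact ⟨fun _ => pure 0, fun _ _ => rfl, fun _ h2 h3 => absurd ⟨h2, h3⟩ h1⟩
  choose W hW0 hW1 using hstep
  have hW : Good W (Ordinal.omega.{0} 2) :=
    { zero := fun u k => hW0 0 u rfl k
      ext := fun a h0 ha u hu => (hW1 a u h0 ha hu).1
      inj := fun a h0 ha u hu => (hW1 a u h0 ha hu).2 }
  -- the embedding
  let φ : Node K (Ordinal.omega.{0} 2) → RKClass := fun s =>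
    toAntisymmetrization (α := BetaOmega) (· ≤ ·) (U W k₀ (tot k₀ s) s.len)
  have hφ : ∀ s t, φ s ≤ φ t ↔ s ≤ t := by
    intro s t
    have e1 : φ s ≤ φ t ↔ RKle (U W k₀ (tot k₀ s) s.len) (U W k₀ (tot k₀ t) t.len) :=
      toAntisymmetrization_le_toAntisymmetrization_iff
    rw [e1, node_le_iff k₀]
    constructor
    · intro h
      obtain ⟨b, hb, hb'⟩ := exists_eqv hW k₀ (tot k₀ t) t.len t.len_lt _ h
      obtain ⟨h1, h2⟩ := Tree.main hW k₀ hF _ _ _ s.len_lt b (lt_of_le_of_lt hb t.len_lt) hb'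
      subst h1
      exact ⟨hb, h2⟩
    · rintro ⟨h1, h2⟩
      rw [U_congr W k₀ _ _ _ h2]
      exact le_of_le hW k₀ _ h1 t.len_lt
  have hinj : Function.Injective φ := fun s t hst =>
    node_ext s t ((hφ s t).1 hst.le) ((hφ t s).1 hst.ge)
  refine ⟨Set.range φ, ?_, ⟨?_⟩⟩
  · -- lower set
    rintro c d hdc ⟨s, rfl⟩
    induction d using Quotient.inductionOn with
    | h V =>
      have hV : RKle V (U W k₀ (tot k₀ s) s.len) := hdc
      obtain ⟨b, hb, hb'⟩ := exists_eqv hW k₀ (tot k₀ s) s.len s.len_lt _ hV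
      refine ⟨⟨b, lt_of_le_of_lt hb s.len_lt, fun c => tot k₀ s c.1⟩, ?_⟩
      apply Quotient.sound
      have h3 : U W k₀ (tot k₀ (⟨b, lt_of_le_of_lt hb s.len_lt, fun c => tot k₀ s c.1⟩ :
          Node K (Ordinal.omega.{0} 2))) b = U W k₀ (tot k₀ s) b := by
        apply U_congr
        intro c hc
        exact tot_of_lt k₀ (⟨b, lt_of_le_of_lt hb s.len_lt, fun c => tot k₀ s c.1⟩ :
          Node K (Ordinal.omega.{0} 2)) hc
      show Eqv _ V
      rw [h3]
      exact hb'.symm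
  · refine ⟨(Equiv.ofInjective φ hinj).symm, ?_⟩
    rintro ⟨_, s, rfl⟩ ⟨_, t, rfl⟩
    rw [Equiv.ofInjective_symm_apply, Equiv.ofInjective_symm_apply]
    exact (hφ s t).symm

end Pool.Agent.RKT
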